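import Pool.Agent.K4H81.GU.Mat

set_option autoImplicit false

/-! Identities in characteristic two: the adjugate of the letters at the root of the norm
polynomial has rank one, and the pairing of the vectors factors. -/

namespace Pool.Agent.K4H81.GU

open Matrix Polynomial Pool.Agent.H7R2.LG

/-- right vector -/
def vX {R : Type*} [CommRing R] (a b n f0 f2 : R) : Fin 4 → R :=
  ![(a * f0 + b * f2) ^ 2, n, a ^ 2 * (b * f0 + a * f2) ^ 2, a ^ 2 * n]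

/-- left vector -/
def vY {R : Type*} [CommRing R] (a b n f1 f3 : R) : Fin 4 → R :=
  ![a ^ 4 * (b * f1 + a * f3) ^ 2, a ^ 2 * n, a ^ 2 * (a * f1 + b * f3) ^ 2, n]

/-- left vector, scaled -/
def vY' {R : Type*} [CommRing R] (a b n f0 f1 f2 f3 : R) : Fin 4 → R :=
  ![a ^ 4 * (b * f1 + a * f3) ^ 2 * f0 ^ 2, a ^ 2 * n * f1 ^ 2,
    a ^ 2 * (a * f1 + b * f3) ^ 2 * f2 ^ 2, n * f3 ^ 2]

/-- the form `M(e, f)` with names for the conjugates -/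
def Mf {R : Type*} [CommRing R] (a b e0 e2 f1 f3 : R) : R :=
  f1 * (b * e0 + a * e2) + f3 * (a * e0 + b * e2)

/-- column vector of a pair of letters -/
def vW {R : Type*} [CommRing R] (a b n m e0 e1 e2 e3 f0 f2 : R) : Fin 4 → R :=
  ![e0 ^ 2 * (Mf a b f0 f2 e1 e3 ^ 2 + n * m),
    e1 ^ 2 * (a ^ 2 * (m * (b * e0 + a * e2) ^ 2 + n * (b * f0 + a * f2) ^ 2)),
    e2 ^ 2 * (a ^ 2 * (Mf a b f0 f2 e1 e3 ^ 2 + n * m)),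
    e3 ^ 2 * (a ^ 4 * (n * (a * f0 + b * f2) ^ 2 + m * (a * e0 + b * e2) ^ 2))]

theorem G4_adj {R : Type*} [CommRing R] (d0 d1 d2 d3 : R) :
    (G4 d0 d1 d2 d3).adjugate = G4 (d1 * d2 * d3) (d0 * d2 * d3) (d0 * d1 * d3) (d0 * d1 * d2) := by
  unfold G4
  ext i j
  rw [Matrix.adjugate_fin_succ_eq_det_submatrix]
  fin_cases i <;> fin_cases j <;>
    simp [Matrix.det_fin_three, Fin.succAbove, Fin.lt_def] <;> ring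

theorem S4_adj {R : Type*} [CommRing R] (a b n f0 f1 f2 f3 : R) (h2 : (2 : R) = 0)
    (hab : a * b = 1)
    (hc : n ^ 2 + b ^ 2 * (f0 ^ 2 * f1 ^ 2 + f2 ^ 2 * f3 ^ 2) +
      a ^ 2 * (f1 ^ 2 * f2 ^ 2 + f0 ^ 2 * f3 ^ 2) = 0) :
    (S4 (a ^ 4) a b n f0 f1 f2 f3).adjugate =
      Matrix.vecMulVec (vX a b n f0 f2) (vY' a b n f0 f1 f2 f3) := by
  unfold S4 vX vY'
  ext i j
  rw [Matrix.adjugate_fin_succ_eq_det_submatrix]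
  fin_cases i <;> fin_cases j
  all_goals simp [Matrix.det_fin_three, Fin.succAbove, Fin.lt_def, Matrix.vecMulVec_apply]
  · linear_combination (f0^2*a^6) * hc + (-2*f0^4*f1^2*a^5*b - 2*f0^4*f1^2*a^4 - 2*f0^4*f1*f3*a^6 - 2*f0^3*f1^2*f2*a^4*b^2 - 2*f0^3*f1^2*f2*a^3*b - 2*f0^3*f1^2*f2*a^2 - 4*f0^3*f1*f2*f3*a^5*b - 4*f0^3*f1*f2*f3*a^4 - 2*f0^3*f2*f3^2*a^6 - f0^2*f1^2*f2^2*a^3*b^3 - f0^2*f1^2*f2^2*a^2*b^2 - f0^2*f1^2*f2^2*a*b - f0^2*f1^2*f2^2 - 2*f0^2*f1*f2^2*f3*a^4*b^2 - 2*f0^2*f1*f2^2*f3*a^3*b - 2*f0^2*f1*f2^2*f3*a^2 - 2*f0^2*f2^2*f3^2*a^5*b - 2*f0^2*f2^2*f3^2*a^4) * hab + (-f0^4*f1^2*a^4 - f0^4*f1*f3*a^6 - f0^4*f3^2*a^8 - f0^3*f1^2*f2*a^2 - 2*f0^3*f1*f2*f3*a^4 - f0^3*f2*f3^2*a^6 - f0^2*f1^2*f2^2*a^8 - f0^2*f1*f2^2*f3*a^2 - f0^2*f2^2*f3^2*a^4 - f0^2*a^6*n^2) * h2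
  · linear_combination (0) * hc + (-f0^2*f1^2*a^5*b*n - f0^2*f1^2*a^4*n - 2*f0*f1^2*f2*a^2*n - f1^2*f2^2*a*b*n - f1^2*f2^2*n) * hab + (-f0^2*f1^2*a^4*n - f0*f1^2*f2*a^2*n - f1^2*f2^2*n) * h2
  · linear_combination (f2^2) * hc + (-f0^2*f1^2*f2^2*a^7*b - f0^2*f1^2*f2^2*a^6 - 2*f0^2*f1*f2^2*f3*a^4 - f0^2*f2^2*f3^2*a^3*b - f0^2*f2^2*f3^2*a^2 - 2*f0*f1^2*f2^3*a^4 - 4*f0*f1*f2^3*f3*a^3*b - 4*f0*f1*f2^3*f3*a^2 - 2*f0*f2^3*f3^2*a^2*b^2 - 2*f0*f2^3*f3^2*a*b - 2*f0*f2^3*f3^2 - f1^2*f2^4*a^3*b - f1^2*f2^4*a^2 - 2*f1*f2^4*f3*a^2*b^2 - 2*f1*f2^4*f3*a*b - 2*f1*f2^4*f3 - f2^4*f3^2*a*b^3 - f2^4*f3^2*b^2) * hab + (-f0^2*f1^2*f2^2*a^6 - f0^2*f1*f2^2*f3*a^4 - f0^2*f2^2*f3^2*a^2 - f0*f1^2*f2^3*a^4 - 2*f0*f1*f2^3*f3*a^2 - f0*f2^3*f3^2 - f1^2*f2^4*a^2 - f1*f2^4*f3 - f2^4*f3^2*b^2) * h2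
  · linear_combination (n) * hc + (-2*f0*f2*f3^2*n) * hab + (-f0^2*f1^2*b^2*n - f0^2*f3^2*a^2*n - f0*f2*f3^2*n - f1^2*f2^2*a^2*n - f2^2*f3^2*b^2*n - n^3) * h2
  · linear_combination (a^4*n) * hc + (-2*f0^2*f1^2*a^3*b*n - 2*f0^2*f1^2*a^2*n - 2*f0^2*f1*f3*a^4*n - 2*f2^2*f3^2*a^3*b*n - 2*f2^2*f3^2*a^2*n) * hab + (-f0^2*f1^2*a^2*n - f0^2*f1*f3*a^4*n - f0^2*f3^2*a^6*n - f1^2*f2^2*a^6*n - f2^2*f3^2*a^2*n - a^4*n^3) * h2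
  · linear_combination (0) * hc + (-f1^2*f2^2*f3^2*a^3*b^3 - f1^2*f2^2*f3^2*a^2*b^2 - f1^2*f2^2*f3^2*a*b - f1^2*f2^2*f3^2 - f1^2*a^3*b*n^2 - f1^2*a^2*n^2) * hab + (-f1^2*a^2*n^2) * h2
  · linear_combination (0) * hc + (-f1^2*f2^2*a^5*b*n - f1^2*f2^2*a^4*n - 2*f1*f2^2*f3*a^2*n - f2^2*f3^2*a*b*n - f2^2*f3^2*n) * hab + (-f1^2*f2^2*a^4*n - f1*f2^2*f3*a^2*n - f2^2*f3^2*n) * h2
  · linear_combination (0) * hc + (-f1^2*f2^2*f3^2*a^5*b^3 - f1^2*f2^2*f3^2*a^4*b^2 - f1^2*f2^2*f3^2*a^3*b - f1^2*f2^2*f3^2*a^2) * hab + (0) * h2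
  · linear_combination (f0^2*a^4) * hc + (-f0^4*f1^2*a^5*b^3 - f0^4*f1^2*a^4*b^2 - 2*f0^4*f1^2*a^3*b - 2*f0^4*f1^2*a^2 - 2*f0^4*f1*f3*a^6*b^2 - 2*f0^4*f1*f3*a^5*b - 2*f0^4*f1*f3*a^4 - f0^4*f3^2*a^7*b - f0^4*f3^2*a^6 - 2*f0^3*f1^2*f2*a^6*b^2 - 2*f0^3*f1^2*f2*a^5*b - 2*f0^3*f1^2*f2*a^4 - 4*f0^3*f1*f2*f3*a^7*b - 4*f0^3*f1*f2*f3*a^6 - 2*f0^3*f2*f3^2*a^8 - f0^2*f1^2*f2^2*a^7*b - f0^2*f1^2*f2^2*a^6 - 2*f0^2*f1*f2^2*f3*a^8 - f0^2*f2^2*f3^2*a^11*b - f0^2*f2^2*f3^2*a^10) * hab + (-f0^4*f1^2*a^2 - f0^4*f1*f3*a^4 - f0^4*f3^2*a^6 - f0^3*f1^2*f2*a^4 - 2*f0^3*f1*f2*f3*a^6 - f0^3*f2*f3^2*a^8 - f0^2*f1^2*f2^2*a^6 - f0^2*f1*f2^2*f3*a^8 - f0^2*f2^2*f3^2*a^10) * h2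
  · linear_combination (a^4*n) * hc + (-2*f0^2*f1^2*a^3*b*n - 2*f0^2*f1^2*a^2*n - 2*f0*f1^2*f2*a^4*n - 2*f2^2*f3^2*a^3*b*n - 2*f2^2*f3^2*a^2*n) * hab + (-f0^2*f1^2*a^2*n - f0^2*f3^2*a^6*n - f0*f1^2*f2*a^4*n - f1^2*f2^2*a^6*n - f2^2*f3^2*a^2*n - a^4*n^3) * h2
  · linear_combination (f2^2*a^6) * hc + (-2*f0^2*f1^2*f2^2*a^5*b - 2*f0^2*f1^2*f2^2*a^4 - 2*f0^2*f1*f2^2*f3*a^4*b^2 - 2*f0^2*f1*f2^2*f3*a^3*b - 2*f0^2*f1*f2^2*f3*a^2 - f0^2*f2^2*f3^2*a^3*b^3 - f0^2*f2^2*f3^2*a^2*b^2 - f0^2*f2^2*f3^2*a*b - f0^2*f2^2*f3^2 - 2*f0*f1^2*f2^3*a^6 - 4*f0*f1*f2^3*f3*a^5*b - 4*f0*f1*f2^3*f3*a^4 - 2*f0*f2^3*f3^2*a^4*b^2 - 2*f0*f2^3*f3^2*a^3*b - 2*f0*f2^3*f3^2*a^2 - 2*f1*f2^4*f3*a^6 - 2*f2^4*f3^2*a^5*b - 2*f2^4*f3^2*a^4) * hab + (-f0^2*f1^2*f2^2*a^4 - f0^2*f1*f2^2*f3*a^2 - f0^2*f2^2*f3^2*a^8 - f0*f1^2*f2^3*a^6 - 2*f0*f1*f2^3*f3*a^4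 - f0*f2^3*f3^2*a^2 - f1^2*f2^4*a^8 - f1*f2^4*f3*a^6 - f2^4*f3^2*a^4 - f2^2*a^6*n^2) * h2
  · linear_combination (0) * hc + (-f0^2*f3^2*a*b*n - f0^2*f3^2*n - 2*f0*f2*f3^2*a^2*n - f2^2*f3^2*a^5*b*n - f2^2*f3^2*a^4*n) * hab + (-f0^2*f3^2*n - f0*f2*f3^2*a^2*n - f2^2*f3^2*a^4*n) * h2
  · linear_combination (0) * hc + (-f0^2*f1^2*a^5*b*n - f0^2*f1^2*a^4*n - 2*f0^2*f1*f3*a^6*n - f0^2*f3^2*a^9*b*n - f0^2*f3^2*a^8*n) * hab + (-f0^2*f1^2*a^4*n - f0^2*f1*f3*a^6*n - f0^2*f3^2*a^8*n) * h2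
  · linear_combination (0) * hc + (-f0^2*f1^2*f3^2*a^9*b^3 - f0^2*f1^2*f3^2*a^8*b^2 - f0^2*f1^2*f3^2*a^7*b - f0^2*f1^2*f3^2*a^6) * hab + (0) * h2
  · linear_combination (a^4*n) * hc + (-2*f0^2*f1^2*a^3*b*n - 2*f0^2*f1^2*a^2*n - 2*f1*f2^2*f3*a^4*n - 2*f2^2*f3^2*a^3*b*n - 2*f2^2*f3^2*a^2*n) * hab + (-f0^2*f1^2*a^2*n - f0^2*f3^2*a^6*n - f1^2*f2^2*a^6*n - f1*f2^2*f3*a^4*n - f2^2*f3^2*a^2*n - a^4*n^3) * h2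
  · linear_combination (0) * hc + (-f0^2*f1^2*f3^2*a^3*b^3 - f0^2*f1^2*f3^2*a^2*b^2 - f0^2*f1^2*f3^2*a*b - f0^2*f1^2*f3^2 - f3^2*a^3*b*n^2 - f3^2*a^2*n^2) * hab + (-f3^2*a^2*n^2) * h2

theorem S4_mulX {R : Type*} [CommRing R] (a b n m e0 e1 e2 e3 f0 f2 : R) (h2 : (2 : R) = 0)
    (hab : a * b = 1) :
    (S4 (a ^ 4) a b n e0 e1 e2 e3) *ᵥ (vX a b m f0 f2) =
      ![Mf a b f0 f2 e1 e3 ^ 2 + n * m,
        a ^ 2 * (m * (b * e0 + a * e2) ^ 2 + n * (b * f0 + a * f2) ^ 2),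
        a ^ 2 * (Mf a b f0 f2 e1 e3 ^ 2 + n * m),
        a ^ 4 * (n * (a * f0 + b * f2) ^ 2 + m * (a * e0 + b * e2) ^ 2)] := by
  unfold S4 vX Mf
  generalize hP : b * f0 + a * f2 = P
  generalize hQ : a * f0 + b * f2 = Q
  ext i
  fin_cases i
  all_goals simp [Matrix.mulVec, dotProduct, Fin.sum_univ_four]
  · linear_combination (-e1^2*a*b*P^2 - e1^2*P^2) * hab + (-e1^2*P^2 - e1*e3*P*Q) * h2
  · linear_combination (-e0^2*a*b*m - e0^2*m - 2*e0*e2*a^2*m) * hab + (-e0*e2*a^2*m - e2^2*a^4*m) * h2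
  · linear_combination (-e3^2*a^3*b*Q^2 - e3^2*a^2*Q^2) * hab + (-e1*e3*a^2*P*Q - e3^2*a^2*Q^2) * h2
  · linear_combination (-2*e0*e2*a^4*m - e2^2*a^3*b*m - e2^2*a^2*m) * hab + (-e0^2*a^6*m - e0*e2*a^4*m) * h2

theorem pair4 {R : Type*} [CommRing R] (a b n m k e0 e1 e2 e3 f0 f2 g1 g3 : R) (h2 : (2 : R) = 0)
    (hab : a * b = 1) (hs : n = b * (e0 * e1 + e2 * e3) + a * (e1 * e2 + e0 * e3)) :
    vY a b k g1 g3 ⬝ᵥ vW a b n m e0 e1 e2 e3 f0 f2 =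
      a ^ 4 * (Mf a b f0 f2 e1 e3 ^ 2 + n * m) * (Mf a b e0 e2 g1 g3 ^ 2 + n * k) := by
  unfold vY vW Mf
  generalize hP : b * f0 + a * f2 = P
  generalize hQ : a * f0 + b * f2 = Q
  simp only [dotProduct, Fin.sum_univ_four, Matrix.cons_val]
  linear_combination (-(a^4*k*m*(e0*e1*b + e0*e3*a + e1*e2*a + e2*e3*b+n))) * hs + (-2*e0^2*e1*e3*a^4*m*k - 2*e0*e1^2*e2*g1^2*a^4*P^2 - 2*e0*e1^2*e2*g1*g3*a^3*b*P^2 - 2*e0*e1^2*e2*g1*g3*a^2*P^2 - 2*e0*e1^2*e2*g3^2*a^4*P^2 - 4*e0*e1*e2*e3*g1^2*a^4*P*Q - 4*e0*e1*e2*e3*g1*g3*a^3*b*P*Q - 4*e0*e1*e2*e3*g1*g3*a^2*P*Q - 4*e0*e1*e2*e3*g3^2*a^4*P*Q - 2*e0*e1*e2*e3*a^3*b*m*k - 2*e0*e1*e2*e3*a^2*m*k - 2*e0*e2*e3^2*g1^2*a^4*Q^2 - 2*e0*e2*e3^2*g1*g3*a^3*b*Q^2 - 2*e0*e2*e3^2*g1*g3*a^2*Q^2 - 2*e0*e2*e3^2*g3^2*a^4*Q^2 - 2*e0*e2*g1^2*a^4*n*m - 2*e0*e2*g1*g3*a^3*b*n*m - 2*e0*e2*g1*g3*a^2*n*m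 - 2*e0*e2*g3^2*a^4*n*m - 2*e1*e2^2*e3*a^4*m*k) * hab + (-e0^2*e1*e3*a^4*m*k - e0*e1^2*e2*g1^2*a^4*P^2 - e0*e1^2*e2*g1*g3*a^6*P^2 - e0*e1^2*e2*g1*g3*a^2*P^2 - e0*e1^2*e2*g3^2*a^4*P^2 - 2*e0*e1*e2*e3*g1^2*a^4*P*Q - 2*e0*e1*e2*e3*g1*g3*a^6*P*Q - 2*e0*e1*e2*e3*g1*g3*a^2*P*Q - 2*e0*e1*e2*e3*g3^2*a^4*P*Q - e0*e1*e2*e3*a^6*m*k - e0*e1*e2*e3*a^2*m*k - e0*e2*e3^2*g1^2*a^4*Q^2 - e0*e2*e3^2*g1*g3*a^6*Q^2 - e0*e2*e3^2*g1*g3*a^2*Q^2 - e0*e2*e3^2*g3^2*a^4*Q^2 - e0*e2*g1^2*a^4*n*m - e0*e2*g1*g3*a^6*n*m - e0*e2*g1*g3*a^2*n*m - e0*e2*g3^2*a^4*n*m - e1*e2^2*e3*a^4*m*k - e1*e3*a^4*n*k*P*Q) * h2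

/-- the product of a letter and the adjugate of a letter, at the root of the norm polynomial -/
theorem letter4 {R : Type*} [CommRing R] (a b e0 e1 e2 e3 f0 f1 f2 f3 n m : R) (u v : R)
    (h2 : (2 : R) = 0) (hab : a * b = 1) (hm : m = f0 * f1 * f2 * f3) (hv : v * m = 1)
    (hc : m ^ 2 + b ^ 2 * (f0 ^ 2 * f1 ^ 2 + f2 ^ 2 * f3 ^ 2) +
      a ^ 2 * (f1 ^ 2 * f2 ^ 2 + f0 ^ 2 * f3 ^ 2) = 0) :
    (G4 (e0 ^ 2 * u) (e1 ^ 2 * u) (e2 ^ 2 * u) (e3 ^ 2 * u) * S4 (a ^ 4) a b n e0 e1 e2 e3) *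
      (G4 (f0 ^ 2 * v) (f1 ^ 2 * v) (f2 ^ 2 * v) (f3 ^ 2 * v) *
        S4 (a ^ 4) a b m f0 f1 f2 f3).adjugate =
      (u * v) • Matrix.vecMulVec (vW a b n m e0 e1 e2 e3 f0 f2) (vY a b m f1 f3) := by
  have e1 : G4 (e0 ^ 2 * u) (e1 ^ 2 * u) (e2 ^ 2 * u) (e3 ^ 2 * u) *ᵥ
      (S4 (a ^ 4) a b n e0 e1 e2 e3 *ᵥ vX a b m f0 f2) = u • vW a b n m e0 e1 e2 e3 f0 f2 := by
    rw [S4_mulX a b n m e0 e1 e2 e3 f0 f2 h2 hab]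
    unfold G4 vW
    ext i
    fin_cases i <;> simp [Matrix.mulVec, dotProduct, Fin.sum_univ_four] <;> ring
  have e2 : vY' a b m f0 f1 f2 f3 ᵥ* G4 (f1 ^ 2 * v * (f2 ^ 2 * v) * (f3 ^ 2 * v))
        (f0 ^ 2 * v * (f2 ^ 2 * v) * (f3 ^ 2 * v)) (f0 ^ 2 * v * (f1 ^ 2 * v) * (f3 ^ 2 * v))
        (f0 ^ 2 * v * (f1 ^ 2 * v) * (f2 ^ 2 * v)) = v • vY a b m f1 f3 := by
    have h3 : (f0 * f1 * f2 * f3) ^ 2 * v ^ 3 = v := by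
      rw [← hm]
      linear_combination (v * (v * m + 1)) * hv
    unfold vY' G4 vY
    ext i
    fin_cases i <;> simp [Matrix.vecMul, dotProduct, Fin.sum_univ_four]
    · linear_combination (a ^ 4 * (b * f1 + a * f3) ^ 2) * h3
    · linear_combination (a ^ 2 * m) * h3
    · linear_combination (a ^ 2 * (a * f1 + b * f3) ^ 2) * h3
    · linear_combination m * h3
  rw [Matrix.adjugate_mul_distrib, S4_adj a b m f0 f1 f2 f3 h2 hab hc, G4_adj,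
    Matrix.vecMulVec_mul, e2, Matrix.mul_assoc, Matrix.mul_vecMulVec, Matrix.mul_vecMulVec, e1]
  ext i j
  simp only [Matrix.smul_apply, Matrix.vecMulVec_apply, smul_eq_mul, Pi.smul_apply]
  ring

/-- an orbit of length four, satisfying the equation of the letters -/
structure Orb {K : Type} [Field K] (σ : K →+* K) (a b e0 e1 e2 e3 n : K) : Prop where
  s0 : σ e0 = e1
  s1 : σ e1 = e2
  s2 : σ e2 = e3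
  s3 : σ e3 = e0
  n0 : e0 ≠ 0
  n1 : e1 ≠ 0
  n2 : e2 ≠ 0
  n3 : e3 ≠ 0
  hn : n = e0 * e1 * e2 * e3
  hs : n = b * (e0 * e1 + e2 * e3) + a * (e1 * e2 + e0 * e3)

theorem Orb.fix {K : Type} [Field K] {σ : K →+* K} {a b e0 e1 e2 e3 n : K}
    (h : Orb σ a b e0 e1 e2 e3 n) : σ n = n := by
  rw [h.hn, map_mul, map_mul, map_mul, h.s0, h.s1, h.s2, h.s3]
  ring

theorem Orb.ne {K : Type} [Field K] {σ : K →+* K} {a b e0 e1 e2 e3 n : K}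
    (h : Orb σ a b e0 e1 e2 e3 n) : n ≠ 0 := by
  rw [h.hn]
  exact mul_ne_zero (mul_ne_zero (mul_ne_zero h.n0 h.n1) h.n2) h.n3

/-- `M(e, g)² ≠ N(e) N(g)` -/
theorem Orb.indep {K : Type} [Field K] {σ : K →+* K} {a b : K} (h2 : (2 : K) = 0)
    (hab : a * b = 1) (ha : σ a = b) (hb : σ b = a) (hne : a ≠ 1)
    {e0 e1 e2 e3 n g0 g1 g2 g3 k : K}
    (he : Orb σ a b e0 e1 e2 e3 n) (hg : Orb σ a b g0 g1 g2 g3 k)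
    (h : Mf a b e0 e2 g1 g3 ^ 2 + n * k = 0) : e0 = g0 := by
  have hneg : ∀ x y : K, x + y = 0 → x = y := by
    intro x y hxy
    linear_combination hxy - y * h2
  have hsq : ∀ x y : K, x ^ 2 = y ^ 2 → x = y := by
    intro x y hxy
    have : (x + y) ^ 2 = 0 := by linear_combination hxy + (y ^ 2 + x * y) * h2
    exact hneg _ _ (pow_eq_zero_iff (two_ne_zero) |>.1 this)
  have hinj : ∀ x y : K, σ x = σ y → x = y := fun x y hxy => σ.injective hxy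
  obtain ⟨α, hα⟩ : ∃ α, α = Mf a b e0 e2 g1 g3 := ⟨_, rfl⟩
  have hα2 : α ^ 2 = n * k := by rw [hα]; exact hneg _ _ h
  have hαf : σ α = α := by
    apply hsq
    rw [← map_pow, hα2, map_mul, he.fix, hg.fix]
  have hα' : α = Mf a b g0 g2 e1 e3 := by
    rw [← hαf, hα]
    unfold Mf
    simp only [map_add, map_mul, ha, hb, he.s0, he.s2, hg.s1, hg.s3]
    ring
  unfold Mf at hα hα'
  -- the vector orthogonal to both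
  obtain ⟨d0, hd0⟩ : ∃ d0, d0 = α * e0 + n * g0 := ⟨_, rfl⟩
  obtain ⟨d2, hd2⟩ : ∃ d2, d2 = α * e2 + n * g2 := ⟨_, rfl⟩
  have hσd : σ (σ d0) = d2 := by
    rw [hd0, hd2]
    simp only [map_add, map_mul, hαf, he.fix, he.s0, he.s1, hg.s0, hg.s1]
  have hσd' : σ (σ d2) = d0 := by
    rw [hd0, hd2]
    simp only [map_add, map_mul, hαf, he.fix, he.s2, he.s3, hg.s2, hg.s3]
  have o1 : e1 * (b * d0 + a * d2) = e3 * (a * d0 + b * d2) := by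
    apply hneg
    rw [hd0, hd2]
    linear_combination (-α) * he.hs - n * hα' + (α * n) * h2
  have o2 : g1 * (b * d0 + a * d2) = g3 * (a * d0 + b * d2) := by
    apply hneg
    rw [hd0, hd2]
    linear_combination (-α) * hα - n * hg.hs + hα2 + (n * k) * h2
  obtain ⟨u, hu⟩ : ∃ u, u = b * d0 + a * d2 := ⟨_, rfl⟩
  obtain ⟨w, hw⟩ : ∃ w, w = a * d0 + b * d2 := ⟨_, rfl⟩
  rw [← hu, ← hw] at o1 o2
  -- the ratio `c` of the letters is fixed by `σ²`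
  have hc : g0 * e2 = g2 * e0 := by
    by_cases hu0 : u = 0
    · have hw0 : w = 0 := by
        have : σ (σ u) = w := by
          rw [hu, hw]
          simp only [map_add, map_mul, ha, hb, hσd, hσd']
          ring
        rw [← this, hu0, map_zero, map_zero]
      have hd : d0 = 0 := by
        have e1 : (b ^ 2 - a ^ 2) * d0 = 0 := by
          linear_combination (-b) * hu + b * hu0 + a * hw - a * hw0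
        rcases mul_eq_zero.1 e1 with h1 | h1
        · exfalso
          have hba : b = a := hsq _ _ (by linear_combination h1)
          rw [hba] at hab
          have : a = 1 := hsq _ _ (by linear_combination hab)
          exact hne this
        · exact h1
      have hd' : d2 = 0 := by rw [← hσd, hd, map_zero, map_zero]
      have r1 : α * e0 = n * g0 := hneg _ _ (by rw [← hd0, hd])
      have r2 : α * e2 = n * g2 := hneg _ _ (by rw [← hd2, hd'])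
      apply mul_left_cancel₀ he.ne
      linear_combination (-e2) * r1 + e0 * r2
    · have h3 : g1 * e3 = g3 * e1 := by
        have hw0 : w ≠ 0 := by
          intro hw0
          rw [hw0, mul_zero] at o1
          rcases mul_eq_zero.1 o1 with h1 | h1
          · exact he.n1 h1
          · exact hu0 h1
        apply mul_left_cancel₀ (mul_ne_zero hu0 hw0)
        linear_combination (w * e3) * o2 - (w * g3) * o1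
      have h4 := congrArg σ h3
      simp only [map_mul, hg.s1, he.s3, hg.s3, he.s1] at h4
      linear_combination -h4
  -- `c = g0 / e0`
  obtain ⟨c, hc0⟩ : ∃ c, g0 = c * e0 := ⟨g0 / e0, (div_mul_cancel₀ _ he.n0).symm⟩
  obtain ⟨c', hc'⟩ : ∃ c', c' = σ c := ⟨_, rfl⟩
  have hg1 : g1 = c' * e1 := by rw [← hg.s0, hc0, map_mul, he.s0, hc']
  have hg2 : g2 = c * e2 := by
    apply mul_right_cancel₀ he.n0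
    rw [← hc, hc0]; ring
  have hg3 : g3 = c' * e3 := by rw [← hg.s2, hg2, map_mul, he.s2, hc']
  have hcα : α = c' * n := by
    rw [hα, hg1, hg3, he.hs]; ring
  have hcf : σ c' = c' := by
    apply mul_right_cancel₀ he.ne
    rw [← hcα]
    conv_lhs => rw [← he.fix]
    rw [← map_mul, ← hcα, hαf]
  have hcc : c' = c := hinj _ _ (by rw [hcf, hc'])
  have hk1 : k = c ^ 2 * n := by
    rw [hg.hs, hc0, hg1, hg2, hg3, he.hs, hcc]; ring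
  have hk2 : k = c ^ 4 * n := by
    rw [hg.hn, hc0, hg1, hg2, hg3, he.hn, hcc]; ring
  have hc00 : c ≠ 0 := by
    rintro rfl
    exact hg.n0 (by rw [hc0, zero_mul])
  have hc1 : c = 1 := by
    apply hsq
    apply mul_left_cancel₀ (mul_ne_zero (pow_ne_zero 2 hc00) he.ne)
    linear_combination hk1 - hk2
  rw [hc0, hc1, one_mul]

end Pool.Agent.K4H81.GU
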