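import Pool.Agent.H7R2.LG.Bnd
import Pool.Agent.K4H81.GU.Nev

set_option autoImplicit false

/-! The number of letters and the order of the groups. -/

namespace Pool.Agent.K4H81.GU

open Matrix Polynomial Pool.Agent.H7R2.LG

/-- the equation of the letters -/
def IsLet {K : Type} [Field K] (σ : K →+* K) (a b e : K) : Prop :=
  e ≠ 0 ∧ e * σ e * σ (σ e) * σ (σ (σ e)) =
    b * (e * σ e + σ (σ e) * σ (σ (σ e))) + a * (σ e * σ (σ e) + e * σ (σ (σ e)))

theorem IsLet.orb {K : Type} [Field K] {σ : K →+* K} {a b e : K} (h : IsLet σ a b e)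
    (h4 : σ (σ (σ (σ e))) = e) :
    Orb σ a b e (σ e) (σ (σ e)) (σ (σ (σ e))) (e * σ e * σ (σ e) * σ (σ (σ e))) where
  s0 := rfl
  s1 := rfl
  s2 := rfl
  s3 := h4
  n0 := h.1
  n1 := (map_ne_zero σ).2 h.1
  n2 := (map_ne_zero σ).2 ((map_ne_zero σ).2 h.1)
  n3 := (map_ne_zero σ).2 ((map_ne_zero σ).2 ((map_ne_zero σ).2 h.1))
  hn := rfl
  hs := h.2

/-- the value of the form at `(e, e)` -/
def Me {K : Type} [Field K] (σ : K →+* K) (a b e : K) : K :=
  b * (e * σ e + σ (σ e) * σ (σ (σ e))) + a * (σ e * σ (σ e) + e * σ (σ (σ e)))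

theorem card_Me_zero {K : Type} [Field K] [Finite K] (q : ℕ) (hq : 1 < q)
    (σ : K →+* K) (hσ : ∀ x, σ x = x ^ q) (a b : K) (hb : b ≠ 0) :
    Nat.card {e : K // Me σ a b e = 0} ≤ q ^ 3 + q ^ 2 - q := by
  have hq2 : q < q ^ 2 := by nlinarith
  have hq3 : q ^ 2 < q ^ 3 := by
    calc q ^ 2 = q ^ 2 * 1 := by ring
      _ < q ^ 2 * q := by
        apply Nat.mul_lt_mul_of_pos_left hq
        positivity
      _ = q ^ 3 := by ring
  have hs : ∀ x : K, σ (σ x) = x ^ (q ^ 2) := by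
    intro x; rw [hσ, hσ, ← pow_mul]; congr 1; ring
  have hs3 : ∀ x : K, σ (σ (σ x)) = x ^ (q ^ 3) := by
    intro x; rw [hs, hσ, ← pow_mul]; congr 1; ring
  have hq2' : 3 < q ^ 2 := by nlinarith
  obtain ⟨D, hD⟩ : ∃ D, q ^ 3 + q ^ 2 = D + (1 + q) := ⟨q ^ 3 + q ^ 2 - (1 + q), by omega⟩
  obtain ⟨E, hE⟩ : ∃ E, q ^ 3 = E + q := ⟨q ^ 3 - q, by omega⟩
  obtain ⟨F, hF⟩ : ∃ F, q ^ 2 = F + 1 := ⟨q ^ 2 - 1, by omega⟩
  have hE0 : 0 < E := by omega
  have hF0 : 0 < F := by omega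
  -- the polynomial divided by its trivial factor
  have hp : (X * (C b * X ^ D + C a * X ^ E + C a * X ^ F + C b) : K[X]) ≠ 0 := by
    refine mul_ne_zero X_ne_zero ?_
    intro h
    have h1 := congrArg (Polynomial.eval 0) h
    simp only [eval_add, eval_mul, eval_C, eval_pow, eval_X, eval_zero] at h1
    rw [zero_pow (by omega), zero_pow (by omega), zero_pow (by omega)] at h1
    simp at h1
    exact hb h1
  have hdeg : (X * (C b * X ^ D + C a * X ^ E + C a * X ^ F + C b) : K[X]).natDegree ≤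
      1 + D := by
    refine natDegree_mul_le.trans (Nat.add_le_add (by rw [natDegree_X]) ?_)
    refine (natDegree_add_le _ _).trans (max_le ((natDegree_add_le _ _).trans
      (max_le ((natDegree_add_le _ _).trans (max_le ?_ ?_)) ?_)) ?_)
    · exact natDegree_C_mul_X_pow_le _ _
    · refine (natDegree_C_mul_X_pow_le _ _).trans ?_
      omega
    · refine (natDegree_C_mul_X_pow_le _ _).trans ?_
      omega
    · rw [natDegree_C]; omega
  refine (E0_root _ hp _ ?_).trans (hdeg.trans (by omega))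
  intro y hy
  by_cases hy0 : y = 0
  · simp [hy0]
  simp only [eval_add, eval_mul, eval_C, eval_pow, eval_X]
  unfold Me at hy
  rw [hs3, hs, hσ, hE, hF] at hy
  have h1 : y ^ (1 + q) ≠ 0 := pow_ne_zero _ hy0
  apply mul_left_cancel₀ h1
  have e1 : y ^ (q ^ 3 + q ^ 2) = y ^ D * y ^ (1 + q) := by rw [hD, pow_add]
  rw [hE, hF] at e1
  have e2 : y ^ (E + q + (F + 1)) = y ^ (E + q) * y ^ (F + 1) := by rw [pow_add]
  rw [e2] at e1
  linear_combination y * hy - y * b * e1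

/-- the number of letters -/
theorem card_let {K : Type} [Field K] [Finite K] (q : ℕ) (hq : 1 < q) (hK : Nat.card K = q ^ 4)
    (h2 : (2 : K) = 0) (σ : K →+* K) (hσ : ∀ x, σ x = x ^ q) (a b : K) (hb : b ≠ 0)
    (ha' : σ a = b) (hb' : σ b = a) :
    q ^ 3 - q ≤ Nat.card {e : K // IsLet σ a b e} := by
  classical
  have hqpow : ∀ x : K, x ^ (q ^ 4) = x := fun x => by
    have := Fintype.ofFinite K
    rw [← hK, Nat.card_eq_fintype_card]
    exact FiniteField.pow_card x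
  have hs4 : ∀ x : K, σ (σ (σ (σ x))) = x := by
    intro x
    rw [hσ, hσ, hσ, hσ, ← pow_mul, ← pow_mul, ← pow_mul]
    rw [show q * (q * (q * q)) = q ^ 4 by ring, hqpow]
  have hsq : ∀ x y : K, x ^ 2 = y ^ 2 → x = y := by
    intro x y hxy
    have : (x + y) ^ 2 = 0 := by linear_combination hxy + (y ^ 2 + x * y) * h2
    have h3 : x + y = 0 := (pow_eq_zero_iff (two_ne_zero)).1 this
    linear_combination h3 - y * h2
  have hchar : ringChar K = 2 := by
    have h1 : ringChar K ∣ 2 := ringChar.dvd (by exact_mod_cast h2)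
    rcases (Nat.dvd_prime Nat.prime_two).1 h1 with h | h
    · exact absurd h (CharP.ringChar_ne_one)
    · exact h
  -- the scaling factor
  have key : ∀ e : {e : K // Me σ a b e ≠ 0}, ∃ t : K, t ≠ 0 ∧ σ t = t ∧
      t ^ 2 * (e.1 * σ e.1 * σ (σ e.1) * σ (σ (σ e.1))) = Me σ a b e.1 := by
    rintro ⟨e, he⟩
    have he0 : e ≠ 0 := by
      rintro rfl
      apply he
      simp [Me]
    have h1 : σ e ≠ 0 := (map_ne_zero σ).2 he0
    have h3 : σ (σ e) ≠ 0 := (map_ne_zero σ).2 h1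
    have h5 : σ (σ (σ e)) ≠ 0 := (map_ne_zero σ).2 h3
    have hN : e * σ e * σ (σ e) * σ (σ (σ e)) ≠ 0 :=
      mul_ne_zero (mul_ne_zero (mul_ne_zero he0 h1) h3) h5
    obtain ⟨t, ht⟩ := FiniteField.isSquare_of_char_two hchar
      (Me σ a b e / (e * σ e * σ (σ e) * σ (σ (σ e))))
    have ht2 : t ^ 2 * (e * σ e * σ (σ e) * σ (σ (σ e))) = Me σ a b e := by
      rw [sq, ← ht, div_mul_cancel₀ _ hN]
    refine ⟨t, ?_, ?_, ht2⟩
    · rintro rfl
      apply he
      rw [← ht2]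
      ring
    · apply hsq
      have hMf : σ (Me σ a b e) = Me σ a b e := by
        unfold Me
        simp only [map_add, map_mul, ha', hb', hs4]
        ring
      have hNf : σ (e * σ e * σ (σ e) * σ (σ (σ e))) = e * σ e * σ (σ e) * σ (σ (σ e)) := by
        simp only [map_mul, hs4]
        ring
      apply mul_right_cancel₀ hN
      calc σ t ^ 2 * (e * σ e * σ (σ e) * σ (σ (σ e))) =
          σ (t ^ 2 * (e * σ e * σ (σ e) * σ (σ (σ e)))) := by rw [map_mul, hNf, map_pow]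
        _ = t ^ 2 * (e * σ e * σ (σ e) * σ (σ (σ e))) := by rw [ht2, hMf]
  choose t ht0 htf ht using key
  -- the map
  have hinj : Nat.card {e : K // Me σ a b e ≠ 0} ≤
      Nat.card ({e : K // IsLet σ a b e} × {y : K // y ≠ 0 ∧ σ y = y}) := by
    refine Nat.card_le_card_of_injective (fun e => (⟨t e * e.1, ?_, ?_⟩, ⟨t e, ht0 e, htf e⟩)) ?_
    · refine mul_ne_zero (ht0 e) ?_
      intro h0
      apply e.2
      simp [Me, h0]
    · have h1 := ht e
      unfold Me at h1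
      simp only [map_mul, htf e]
      linear_combination (t e ^ 2) * h1
    · intro e e' h
      simp only [Prod.mk.injEq, Subtype.mk.injEq] at h
      obtain ⟨h1, h3⟩ := h
      rw [h3] at h1
      exact Subtype.ext (mul_left_cancel₀ (ht0 e') h1)
  rw [Nat.card_prod] at hinj
  have hF : Nat.card {y : K // y ≠ 0 ∧ σ y = y} ≤ q - 1 := by
    apply E0_pow (q - 1) (by omega)
    rintro y ⟨hy0, hy⟩
    rw [hσ] at hy
    apply mul_right_cancel₀ hy0
    rw [one_mul, ← pow_succ, Nat.sub_add_cancel (by omega), hy]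
  have hcompl : Nat.card {e : K // Me σ a b e = 0} + Nat.card {e : K // Me σ a b e ≠ 0} =
      q ^ 4 := by
    rw [← hK, ← Nat.card_sum]
    exact Nat.card_congr (Equiv.sumCompl (fun e : K => Me σ a b e = 0))
  have hz := card_Me_zero q hq σ hσ a b hb
  obtain ⟨Z, hZ⟩ : ∃ Z, Z = Nat.card {e : K // IsLet σ a b e} := ⟨_, rfl⟩
  rw [← hZ] at hinj ⊢
  have h6 : q ^ 4 - (q ^ 3 + q ^ 2 - q) ≤ Z * (q - 1) := by
    calc q ^ 4 - (q ^ 3 + q ^ 2 - q) ≤ Nat.card {e : K // Me σ a b e ≠ 0} := by omega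
      _ ≤ Z * Nat.card {y : K // y ≠ 0 ∧ σ y = y} := hinj
      _ ≤ Z * (q - 1) := Nat.mul_le_mul_left _ hF
  have h7 : q ^ 4 - (q ^ 3 + q ^ 2 - q) = (q ^ 3 - q) * (q - 1) := by
    obtain ⟨r, rfl⟩ : ∃ r, q = r + 1 := ⟨q - 1, by omega⟩
    have e1 : (r + 1) ^ 3 + (r + 1) ^ 2 - (r + 1) = (r + 1) ^ 3 + (r + 1) * r := by
      have : (r + 1) ^ 2 = (r + 1) * r + (r + 1) := by ring
      omega
    have e2 : (r + 1) ^ 3 - (r + 1) = (r + 1) * r * (r + 2) := by
      have : (r + 1) ^ 3 = (r + 1) * r * (r + 2) + (r + 1) := by ring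
      omega
    rw [e1, e2, Nat.add_sub_cancel]
    have e3 : (r + 1) ^ 4 = (r + 1) * r * (r + 2) * r + ((r + 1) ^ 3 + (r + 1) * r) := by ring
    omega
  rw [h7] at h6
  exact Nat.le_of_mul_le_mul_right h6 (by omega)

/-- the order of the groups -/
theorem bndU {K : Type} [Field K] [Finite K] (q : ℕ) (hq : 1 < q) (hK : Nat.card K = q ^ 4)
    (σ : K →+* K) (hσ : ∀ a, σ a = a ^ q) (m : ℕ) :
    Nat.card {y : K // y * σ (σ y) = 1} *
      ∏ i ∈ Finset.range m, wt 3 σ (⊥ : Subgroup Kˣ) (i + 1) ≤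
      (q ^ 2 + 1) * q ^ (4 * m - m / 4) := by
  have h := E0_bound (fun i => if i = 0 then q ^ 2 + 1 else wt 3 σ (⊥ : Subgroup Kˣ) i)
    (q ^ 2 + 1) q 4 1 4 (by omega) (by omega) (by omega) ?_ ?_ ?_ m
  · rw [Finset.prod_range_succ'] at h
    simp only [Nat.succ_ne_zero, if_false, if_true, one_mul] at h
    refine le_trans ?_ h
    rw [mul_comm]
    apply Nat.mul_le_mul_left
    apply E0_pow _ (by positivity)
    intro y hy
    have hs : σ (σ y) = y ^ (q ^ 2) := by
      rw [hσ, hσ, ← pow_mul]; congr 1; ring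
    rw [hs] at hy
    rw [pow_succ, mul_comm, hy]
  · simp
  · intro i hi hd
    rw [if_neg (by omega)]
    simp only [wt]
    rw [if_neg (by omega), if_pos hd]
    exact E0_tr4 q hq σ hσ
  · intro i hi
    rw [if_neg (by omega)]
    simp only [wt]
    rw [if_neg (by omega)]
    split_ifs
    · refine (E0_tr4 q hq σ hσ).trans (Nat.pow_le_pow_right (by omega) (by omega))
    · rw [hK]

end Pool.Agent.K4H81.GU
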