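import Pool.Agent.H7R2.LG.GirthA

set_option autoImplicit false

/-! A girth argument for cyclic algebras `K(x){τ}`, with letters whose reduced norm is a fixed
polynomial `l` which is reciprocal of degree `k`; the starting files treat reduced norms of
degree one. -/

namespace Pool.Agent.K4H81.GU

open Matrix Polynomial Pool.Agent.H7R2.LG

/-- The data needed for the construction. -/
structure Dat (K : Type) [Field K] (d : ℕ) (ι : Type) where
  σ : K →+* K
  ψ : K →+* K
  T : ι → Matrix (Fin (d + 1)) (Fin (d + 1)) K[X]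
  hT : ∀ i, InO (mapRingHom σ) X (T i)
  l : K[X]
  hl1 : IsCoprime (X : K[X]) l
  hl0 : l ≠ 0
  k : ℕ
  κ : K
  hκ : κ ≠ 0
  hrec : Psi ψ l * (algebraMap K[X] (FractionRing K[X]) X) ^ k =
    algebraMap K[X] (FractionRing K[X]) (C κ * l)
  hdet : ∀ i, (T i).det = l
  z : K
  hz : l.eval z = 0
  J : Matrix (Fin (d + 1)) (Fin (d + 1)) K[X]
  hJ : J.det ≠ 0
  Θ : Matrix (Fin (d + 1)) (Fin (d + 1)) (FractionRing K[X])
  hΘ : ∀ i, ((T i).map (Psi ψ))ᵀ * J.map (algebraMap K[X] (FractionRing K[X])) *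
    (T i).map (algebraMap K[X] (FractionRing K[X])) = Θ
  hne : ∀ L : List (ι × ι), Red L → L ≠ [] →
    (L.map fun p => (T p.1 * (T p.2).adjugate).map (eval z)).prod ≠ 0

theorem girthA2 {K : Type} [Field K] {d : ℕ} {ι : Type} (D : Dat K d ι) (L : List (ι × ι))
    (hL : Red L) (hne : L ≠ []) (m : ℕ)
    (h : (X : K[X]) ^ m ∣ ((L.map fun p => (D.T p.2).det).prod •
        (1 : Matrix (Fin (d + 1)) (Fin (d + 1)) K[X]) -
      (L.map fun p => D.T p.1 * (D.T p.2).adjugate).prod).det) : 2 * m ≤ D.k * L.length := by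
  set a : K[X] →+* FractionRing K[X] := algebraMap K[X] (FractionRing K[X]) with ha
  have hinj : Function.Injective a := IsFractionRing.injective K[X] (FractionRing K[X])
  set l : K[X] := D.l with hl
  have hl0 : l ≠ 0 := D.hl0
  have hxa : a X ≠ 0 := by
    intro h0
    exact X_ne_zero (hinj (by rw [h0, map_zero]))
  have hdet1 : ∀ i, (D.T i).det = C ((fun _ => (1 : K)) i) * l := by
    intro i
    rw [D.hdet, C_1, one_mul]
  have hdet0 : ∀ i, (D.T i).det ≠ 0 := by
    intro i
    rw [D.hdet]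
    exact hl0
  have hfa : ∀ i, a (D.T i).det ≠ 0 := by
    intro i h0
    exact hdet0 i (hinj (by rw [h0, map_zero]))
  have hPl : Psi D.ψ l * a X ^ D.k = a (C D.κ) * a l := by
    have := D.hrec
    rw [← ha] at this
    rw [this, map_mul]
  have haκ : a (C D.κ) ≠ 0 := by
    intro h0
    have : C D.κ = 0 := hinj (by rw [h0, map_zero])
    exact D.hκ (by simpa using this)
  have hal : a l ≠ 0 := fun h0 => hl0 (hinj (by rw [h0, map_zero]))
  have hPl0 : Psi D.ψ l ≠ 0 := by
    intro h0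
    rw [h0, zero_mul] at hPl
    exact mul_ne_zero haκ hal hPl.symm
  have hfP : ∀ i, Psi D.ψ (D.T i).det ≠ 0 := by
    intro i
    rw [D.hdet]
    exact hPl0
  set Λ := A4_Lam D.T L with hΛ
  set Wt := A4_Wt D.T L with hWt
  set W := A4_W D.T a L with hW
  set W' := A4_W D.T (Psi D.ψ) L with hW'
  have hΛe : Λ = l ^ L.length := by
    have := A4_Lam_eq D.T (fun _ => (1 : K)) l hdet1 L
    rw [hΛ, this]
    simp
  -- the polynomial p
  obtain ⟨p, hp⟩ := block (R := K[X]) (F := FractionRing K[X])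
    (L.map fun p => (D.T p.1, D.T p.2))
    (by
      intro q hq
      simp only [List.mem_map] at hq
      obtain ⟨p, _, rfl⟩ := hq
      exact hfa p.2) (Fin (d + 1)) 1 (-1) 1
  have hp' : a p = a Λ * (1 - W).det := by
    rw [ha, hp]
    congr 1
    · simp [hΛ, A4_Lam, List.map_map, Function.comp_def]
    · congr 1
      have e1 : (1 : Matrix (Fin (d + 1)) (Fin (d + 1)) K[X]).map
          (algebraMap K[X] (FractionRing K[X])) = 1 :=
        Matrix.map_one _ (map_zero _) (map_one _)
      have e2 : (-1 : Matrix (Fin (d + 1)) (Fin (d + 1)) K[X]).map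
          (algebraMap K[X] (FractionRing K[X])) = -1 := by
        ext i j
        simp only [Matrix.map_apply, Matrix.neg_apply, Matrix.one_apply, map_neg]
        split_ifs <;> simp
      rw [e1, e2]
      simp [hW, A4_W, List.map_map, Function.comp_def, sub_eq_add_neg, ha]
  have hpΛ : Λ ^ d * p = (Λ • (1 : Matrix (Fin (d + 1)) (Fin (d + 1)) K[X]) - Wt).det := by
    apply hinj
    rw [A4_det_sub D.T a hfa L, map_mul, map_pow, hp', pow_succ]
    ring
  have hΛ0 : Λ ≠ 0 := by
    rw [hΛe]; exact pow_ne_zero _ hl0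
  have hPΛ : Psi D.ψ Λ ≠ 0 := by
    rw [hΛe, map_pow]
    exact pow_ne_zero _ hPl0
  have hPp : Psi D.ψ p = Psi D.ψ Λ * (1 - W').det := by
    have h1 := congrArg (Psi D.ψ) hpΛ
    rw [A4_det_sub D.T (Psi D.ψ) hfP L, map_mul, map_pow, pow_succ, mul_assoc] at h1
    exact mul_left_cancel₀ (pow_ne_zero _ hPΛ) h1
  have hJ : (D.J.map a).det ≠ 0 := by
    rw [← RingHom.mapMatrix_apply, ← RingHom.map_det]
    intro h0; exact D.hJ (hinj (by rw [h0, map_zero]))
  have hun := A4_unit D.T a (Psi D.ψ) hfa hfP (D.J.map a) D.Θ D.hΘ L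
  have hud := A4_unit_det _ _ _ hJ hun
  rw [← hW, ← hW'] at hud
  have hdW : W.det = 1 := by
    have := A4_detW D.T a (fun _ => (1 : K)) l hdet1 hfa L
    simpa [hW] using this
  rw [hdW, mul_one] at hud
  -- reciprocity
  have hrec : Psi D.ψ p * (a X) ^ (D.k * L.length) =
      a (C (D.κ ^ L.length * (-1) ^ (d + 1)) * p) := by
    have e1 : Psi D.ψ Λ * (a X) ^ (D.k * L.length) = a (C D.κ) ^ L.length * a Λ := by
      rw [hΛe, map_pow, pow_mul, ← mul_pow, hPl, mul_pow, map_pow]
    have e2 : a (C (D.κ ^ L.length * (-1) ^ (d + 1))) = a (C D.κ) ^ L.length * (-1) ^ (d + 1) := by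
      simp [map_mul, map_pow, map_neg]
    calc Psi D.ψ p * (a X) ^ (D.k * L.length)
        = (Psi D.ψ Λ * (a X) ^ (D.k * L.length)) * (1 - W').det := by
          rw [hPp]; ring
      _ = (a (C D.κ) ^ L.length * (-1) ^ (d + 1)) * (a Λ * (1 - W).det) := by
          rw [e1, hud]; ring
      _ = _ := by rw [map_mul, e2, hp']
  -- X ^ m ∣ p
  have hXp : (X : K[X]) ^ m ∣ p := by
    have h1 : (X : K[X]) ^ m ∣ Λ ^ d * p := by
      rw [hpΛ]; exact h
    have hco2 : IsCoprime (X : K[X]) Λ := by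
      rw [hΛe]
      exact D.hl1.pow_right
    exact (IsCoprime.pow hco2).dvd_of_dvd_mul_left h1
  -- p ≠ 0
  have hp0 : p ≠ 0 := by
    rintro rfl
    rw [mul_zero] at hpΛ
    have hO : InO (mapRingHom D.σ) X
        (Λ • (1 : Matrix (Fin (d + 1)) (Fin (d + 1)) K[X]) - Wt) := by
      apply InO.sub
      · apply A4_inO_smul
        rw [hΛ, A4_Lam, map_list_prod, List.map_map]
        congr 1
        apply List.map_congr_left
        intro p _
        exact A4_det_fix X_ne_zero (D.hT p.2)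
      · rw [hWt, A4_Wt]
        apply A4_inO_prod
        intro M hM
        simp only [List.mem_map] at hM
        obtain ⟨p, _, rfl⟩ := hM
        exact (D.hT p.1).mul (A4_inO_adj X_ne_zero (D.hT p.2) (hdet0 p.2))
    have h0 := inO_division D.σ hO hpΛ.symm
    have h1 : Wt = Λ • (1 : Matrix (Fin (d + 1)) (Fin (d + 1)) K[X]) := (sub_eq_zero.mp h0).symm
    apply D.hne L hL hne
    have h2 : (L.map fun p => (D.T p.1 * (D.T p.2).adjugate).map (eval D.z)).prod =
        (evalRingHom D.z).mapMatrix Wt := by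
      rw [hWt, A4_Wt, map_list_prod, List.map_map]
      rfl
    rw [h2, h1]
    have h3 : eval D.z Λ = 0 := by
      rw [hΛe, eval_pow, hl, D.hz, zero_pow]
      exact fun h => hne (List.length_eq_zero_iff.mp h)
    ext i j
    simp only [RingHom.mapMatrix_apply, Matrix.map_apply, Matrix.smul_apply, smul_eq_mul,
      Polynomial.coe_evalRingHom, eval_mul, h3, zero_mul, Matrix.zero_apply]
  have hκ0 : D.κ ^ L.length * (-1) ^ (d + 1) ≠ 0 :=
    mul_ne_zero (pow_ne_zero _ D.hκ) (pow_ne_zero _ (by simp))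
  exact recip D.ψ p hp0 _ hκ0 (D.k * L.length) m hrec hXp

end Pool.Agent.K4H81.GU
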