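import Pool.Agent.K4H81.GU.Nev
import Pool.Agent.K4H81.GU.Dat

set_option autoImplicit false

/-! The datum of degree four with letters of reduced norm `1 - (a⁴ + b⁴) x + x²`. -/

namespace Pool.Agent.K4H81.GU

open Matrix Polynomial Pool.Agent.H7R2.LG

theorem gen4 {K : Type} [Field K] {ι : Type} (A : ι × ι → Matrix (Fin 4) (Fin 4) K)
    (s : ι × ι → K) (w : ι × ι → Fin 4 → K) (v : ι → Fin 4 → K) (hs : ∀ i, s i ≠ 0)
    (hA : ∀ p, A p = s p • Matrix.vecMulVec (w p) (v p.2)) (hv : ∀ i, v i 3 ≠ 0)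
    (hd : ∀ (i : ι) (p : ι × ι), i ≠ p.1 → p.1 ≠ p.2 → v i ⬝ᵥ w p ≠ 0) :
    ∀ (L : List (ι × ι)) (p : ι × ι), Red (p :: L) →
      ∃ c : K, c ≠ 0 ∧ ∃ y : Fin 4 → K, y 3 ≠ 0 ∧
        ((p :: L).map A).prod = c • Matrix.vecMulVec (w p) y := by
  intro L
  induction L with
  | nil =>
    intro p _
    exact ⟨s p, hs _, v p.2, hv _, by simp [hA]⟩
  | cons q L ih =>
    intro p hp
    have hq : Red (q :: L) := ⟨fun r hr => hp.1 r (List.mem_cons_of_mem _ hr), hp.2.tail⟩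
    have hpq : p.2 ≠ q.1 := by
      have := hp.2
      rw [List.isChain_cons_cons] at this
      exact this.1
    have hqq : q.1 ≠ q.2 := hq.1 q List.mem_cons_self
    obtain ⟨c, hc, y, hy, e⟩ := ih q hq
    refine ⟨s p * (c * (v p.2 ⬝ᵥ w q)), mul_ne_zero (hs _) (mul_ne_zero hc (hd _ _ hpq hqq)),
      y, hy, ?_⟩
    rw [List.map_cons, List.prod_cons, e, hA p, Matrix.smul_mul, Matrix.mul_smul,
      Matrix.vecMulVec_mul_vecMulVec, smul_smul]
    ext i j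
    simp only [Matrix.smul_apply, Matrix.vecMulVec_apply, smul_eq_mul, Pi.smul_apply]
    ring

/-- the letter of `e` -/
noncomputable def TL {K : Type} [Field K] (a b e0 e1 e2 e3 n : K) : Matrix (Fin 4) (Fin 4) K[X] :=
  G4 (C (e0 ^ 2 * n⁻¹)) (C (e1 ^ 2 * n⁻¹)) (C (e2 ^ 2 * n⁻¹)) (C (e3 ^ 2 * n⁻¹)) *
    S4 X (C a) (C b) (C n) (C e0) (C e1) (C e2) (C e3)

theorem TL_map {K S : Type} [Field K] [CommRing S] (f : K[X] →+* S) (a b e0 e1 e2 e3 n : K) :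
    (TL a b e0 e1 e2 e3 n).map f =
      G4 (f (C (e0 ^ 2 * n⁻¹))) (f (C (e1 ^ 2 * n⁻¹))) (f (C (e2 ^ 2 * n⁻¹)))
        (f (C (e3 ^ 2 * n⁻¹))) *
      S4 (f X) (f (C a)) (f (C b)) (f (C n)) (f (C e0)) (f (C e1)) (f (C e2)) (f (C e3)) := by
  unfold TL
  rw [Matrix.map_mul, G4_map, S4_map]

theorem Orb.sq {K : Type} [Field K] {σ : K →+* K} {a b e0 e1 e2 e3 n : K} (h2 : (2 : K) = 0)
    (h : Orb σ a b e0 e1 e2 e3 n) : n ^ 2 + b ^ 2 * (e0 ^ 2 * e1 ^ 2 + e2 ^ 2 * e3 ^ 2) +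
      a ^ 2 * (e1 ^ 2 * e2 ^ 2 + e0 ^ 2 * e3 ^ 2) = 0 := by
  have hs := h.hs
  linear_combination (n + b * (e0 * e1 + e2 * e3) + a * (e1 * e2 + e0 * e3)) * hs +
    (b ^ 2 * (e0 ^ 2 * e1 ^ 2 + e2 ^ 2 * e3 ^ 2) +
      a ^ 2 * (e1 ^ 2 * e2 ^ 2 + e0 ^ 2 * e3 ^ 2) + b ^ 2 * e0 * e1 * e2 * e3 +
      a ^ 2 * e0 * e1 * e2 * e3 + a * b * (e0 * e1 + e2 * e3) * (e1 * e2 + e0 * e3)) * h2

theorem TL_inO {K : Type} [Field K] {σ : K →+* K} {a b e0 e1 e2 e3 n : K}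
    (ha : σ a = b) (hb : σ b = a) (h : Orb σ a b e0 e1 e2 e3 n) :
    InO (mapRingHom σ) X (TL a b e0 e1 e2 e3 n) := by
  unfold TL
  refine InO.mul (G4_inO _ _ _ _ _ _ ?_ ?_ ?_ ?_) (S4_inO _ _ _ _ _ _ _ _ _ ?_ ?_ ?_ ?_ ?_ ?_ ?_ ?_)
  all_goals simp [h.s0, h.s1, h.s2, h.s3, h.fix, ha, hb]

theorem TL_det {K : Type} [Field K] {σ : K →+* K} {a b e0 e1 e2 e3 n : K} (h2 : (2 : K) = 0)
    (hab : a * b = 1) (h : Orb σ a b e0 e1 e2 e3 n) :
    (TL a b e0 e1 e2 e3 n).det = 1 - (C a ^ 4 + C b ^ 4) * X + X ^ 2 := by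
  unfold TL
  have hc := congrArg C (h.sq h2)
  have hab' := congrArg C hab
  simp only [map_add, map_mul, map_pow, map_zero, map_one] at hc hab'
  have hn : (C n : K[X]) = C e0 * C e1 * C e2 * C e3 := by
    rw [h.hn]; simp
  rw [hn] at hc ⊢
  rw [Matrix.det_mul, G4_det, S4_det X _ _ _ _ _ _ hab' hc, ← hn]
  have hu : (C (n⁻¹) : K[X]) * C n = 1 := by
    rw [← C_mul, inv_mul_cancel₀ h.ne, C_1]
  simp only [map_mul, map_pow]
  have e : C e0 ^ 2 * C n⁻¹ * (C e1 ^ 2 * C n⁻¹) * (C e2 ^ 2 * C n⁻¹) * (C e3 ^ 2 * C n⁻¹) *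
      (C n ^ 2) = 1 := by
    calc _ = (C e0 * C e1 * C e2 * C e3) ^ 2 * C n ^ 2 * C n⁻¹ ^ 4 := by ring
      _ = (C n⁻¹ * C n) ^ 4 := by rw [← hn]; ring
      _ = 1 := by rw [hu, one_pow]
  linear_combination (1 - (C a ^ 4 + C b ^ 4) * X + X ^ 2) * e

theorem G4_transpose {R : Type*} [CommRing R] (d0 d1 d2 d3 : R) :
    (G4 d0 d1 d2 d3)ᵀ = G4 d0 d1 d2 d3 := by
  unfold G4
  ext i j
  fin_cases i <;> fin_cases j <;> simp

theorem G4_smul {R : Type*} [CommRing R] (u d0 d1 d2 d3 : R) :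
    G4 (d0 * u) (d1 * u) (d2 * u) (d3 * u) = u • G4 d0 d1 d2 d3 := by
  unfold G4
  ext i j
  fin_cases i <;> fin_cases j <;> simp [mul_comm]

theorem TL_theta {K : Type} [Field K] {σ : K →+* K} {a b e0 e1 e2 e3 n : K} (h2 : (2 : K) = 0)
    (hab : a * b = 1) (h : Orb σ a b e0 e1 e2 e3 n) :
    ((TL a b e0 e1 e2 e3 n).map (Psi (RingHom.id K)))ᵀ *
      (J4 (X : K[X]) (C a) (C b)).map (algebraMap K[X] (FractionRing K[X])) *
      (TL a b e0 e1 e2 e3 n).map (algebraMap K[X] (FractionRing K[X])) =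
    Th4 (algebraMap K[X] (FractionRing K[X]) X) (algebraMap K[X] (FractionRing K[X]) (C a))
      (algebraMap K[X] (FractionRing K[X]) (C b)) := by
  have hX : algebraMap K[X] (FractionRing K[X]) X ≠ 0 := by
    intro h
    exact X_ne_zero ((IsFractionRing.injective K[X] (FractionRing K[X]))
      (h.trans (map_zero (algebraMap K[X] (FractionRing K[X]))).symm))
  obtain ⟨x, hx⟩ : ∃ x, x = algebraMap K[X] (FractionRing K[X]) X := ⟨_, rfl⟩
  obtain ⟨c, hc⟩ : ∃ c : K →+* FractionRing K[X],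
    c = (algebraMap K[X] (FractionRing K[X])).comp C := ⟨_, rfl⟩
  have hc' : ∀ a, algebraMap K[X] (FractionRing K[X]) (C a) = c a := by
    intro a; rw [hc]; rfl
  have hPC : ∀ a, Psi (RingHom.id K) (C a) = c a := by
    intro a
    rw [hc]
    unfold Psi
    simp
  have hPX : Psi (RingHom.id K) X = x⁻¹ := by
    unfold Psi
    rw [hx]
    simp
  rw [TL_map, TL_map, J4_map]
  simp only [hc', hPC, hPX, ← hx]
  rw [← hx] at hX
  have hcc := congrArg c (h.sq h2)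
  have hab' := congrArg c hab
  have hu : c n⁻¹ * c n = 1 := by rw [← map_mul, inv_mul_cancel₀ h.ne, map_one]
  simp only [map_add, map_mul, map_pow, map_zero, map_one] at hcc hab'
  simp only [map_mul, map_pow]
  have hn : c n = c e0 * c e1 * c e2 * c e3 := by
    rw [h.hn]; simp
  rw [hn] at hcc hu ⊢
  rw [G4_smul, Matrix.transpose_mul, Matrix.transpose_smul, G4_transpose]
  have key := S4_theta x x⁻¹ (c a) (c b) (c e0) (c e1) (c e2) (c e3) (mul_inv_cancel₀ hX) hab' hcc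
  calc _ = (c n⁻¹ * c n⁻¹) • ((S4 x⁻¹ (c a) (c b) (c e0 * c e1 * c e2 * c e3)
        (c e0) (c e1) (c e2) (c e3))ᵀ *
        (G4 (c e0 ^ 2) (c e1 ^ 2) (c e2 ^ 2) (c e3 ^ 2) * J4 x (c a) (c b) *
          G4 (c e0 ^ 2) (c e1 ^ 2) (c e2 ^ 2) (c e3 ^ 2)) *
        S4 x (c a) (c b) (c e0 * c e1 * c e2 * c e3) (c e0) (c e1) (c e2) (c e3)) := by
        simp only [Matrix.mul_smul, Matrix.smul_mul, smul_smul, Matrix.mul_assoc]
    _ = _ := by
        rw [key, smul_smul]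
        have e : c n⁻¹ * c n⁻¹ * (c e0 * c e1 * c e2 * c e3) ^ 2 = 1 := by
          linear_combination (c n⁻¹ * (c e0 * c e1 * c e2 * c e3) + 1) * hu
        rw [e, one_smul]

theorem TL_letter {K : Type} [Field K] {σ : K →+* K} {a b : K} (h2 : (2 : K) = 0)
    (hab : a * b = 1) {e0 e1 e2 e3 n f0 f1 f2 f3 m : K}
    (hf : Orb σ a b f0 f1 f2 f3 m) :
    (TL a b e0 e1 e2 e3 n * (TL a b f0 f1 f2 f3 m).adjugate).map (eval (a ^ 4)) =
      (n⁻¹ * m⁻¹) • Matrix.vecMulVec (vW a b n m e0 e1 e2 e3 f0 f2) (vY a b m f1 f3) := by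
  have h : (TL a b e0 e1 e2 e3 n * (TL a b f0 f1 f2 f3 m).adjugate).map (eval (a ^ 4)) =
      (TL a b e0 e1 e2 e3 n).map (evalRingHom (a ^ 4)) *
        ((TL a b f0 f1 f2 f3 m).map (evalRingHom (a ^ 4))).adjugate := by
    have e1 : ∀ M : Matrix (Fin 4) (Fin 4) K[X], M.map (eval (a ^ 4)) =
      (evalRingHom (a ^ 4 : K)).mapMatrix M := fun M => rfl
    have e2 : ∀ M : Matrix (Fin 4) (Fin 4) K[X], M.map (evalRingHom (a ^ 4)) =
      (evalRingHom (a ^ 4 : K)).mapMatrix M := fun M => rfl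
    rw [e1, e2, e2, map_mul, RingHom.map_adjugate]
  rw [h, TL_map, TL_map]
  simp only [coe_evalRingHom, eval_C, eval_X]
  exact letter4 a b e0 e1 e2 e3 f0 f1 f2 f3 n m n⁻¹ m⁻¹ h2 hab hf.hn (inv_mul_cancel₀ hf.ne)
    (hf.sq h2)

/-- The datum. -/
theorem datumU {K : Type} [Field K] (σ : K →+* K) (a b : K) (h2 : (2 : K) = 0)
    (hab : a * b = 1) (ha : σ a = b) (hb : σ b = a) (hne : a ≠ 1) {ι : Type} (e0 e1 e2 e3 n : ι → K)
    (hO : ∀ i, Orb σ a b (e0 i) (e1 i) (e2 i) (e3 i) (n i)) (hinj : Function.Injective e0) :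
    ∃ D : Dat K 3 ι, D.σ = σ ∧ D.k = 2 ∧ ∀ i, (D.T i 0 0).coeff 0 * σ (σ ((D.T i 0 0).coeff 0)) = 1 := by
  have ha0 : a ≠ 0 := left_ne_zero_of_mul_eq_one hab
  have hb0 : b ≠ 0 := right_ne_zero_of_mul_eq_one hab
  refine ⟨{
    σ := σ
    ψ := RingHom.id K
    T := fun i => TL a b (e0 i) (e1 i) (e2 i) (e3 i) (n i)
    hT := fun i => TL_inO ha hb (hO i)
    l := 1 - (C a ^ 4 + C b ^ 4) * X + X ^ 2
    hl1 := ⟨C a ^ 4 + C b ^ 4 - X, 1, by ring⟩
    hl0 := ?_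
    k := 2
    κ := 1
    hκ := one_ne_zero
    hrec := ?_
    hdet := fun i => TL_det h2 hab (hO i)
    z := a ^ 4
    hz := ?_
    J := J4 X (C a) (C b)
    hJ := J4_det a b ha0 hb0
    Θ := Th4 (algebraMap K[X] (FractionRing K[X]) X) (algebraMap K[X] (FractionRing K[X]) (C a))
      (algebraMap K[X] (FractionRing K[X]) (C b))
    hΘ := fun i => TL_theta h2 hab (hO i)
    hne := ?_ }, rfl, rfl, ?_⟩
  · intro h
    have h1 := congrArg (eval 0) h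
    simp at h1
  · have hX : algebraMap K[X] (FractionRing K[X]) X ≠ 0 := by
      intro h
      exact X_ne_zero ((IsFractionRing.injective K[X] (FractionRing K[X]))
        (h.trans (map_zero (algebraMap K[X] (FractionRing K[X]))).symm))
    have hPX : Psi (RingHom.id K) X = (algebraMap K[X] (FractionRing K[X]) X)⁻¹ := by
      unfold Psi
      simp
    have hPC : ∀ a, Psi (RingHom.id K) (C a) = algebraMap K[X] (FractionRing K[X]) (C a) := by
      intro a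
      unfold Psi
      simp
    simp only [map_add, map_sub, map_mul, map_pow, map_one, hPX, hPC]
    field_simp
    ring
  · have h4 : a ^ 4 * b ^ 4 = 1 := by rw [← mul_pow, hab, one_pow]
    simp only [eval_add, eval_sub, eval_mul, eval_pow, eval_C, eval_X, eval_one]
    linear_combination (-h4)
  · intro L hL hne'
    obtain ⟨p, L', rfl⟩ := List.exists_cons_of_ne_nil hne'
    obtain ⟨c, hc, w, hw, h⟩ := gen4
      (fun p => (TL a b (e0 p.1) (e1 p.1) (e2 p.1) (e3 p.1) (n p.1) *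
        (TL a b (e0 p.2) (e1 p.2) (e2 p.2) (e3 p.2) (n p.2)).adjugate).map (eval (a ^ 4)))
      (fun p => (n p.1)⁻¹ * (n p.2)⁻¹)
      (fun p => vW a b (n p.1) (n p.2) (e0 p.1) (e1 p.1) (e2 p.1) (e3 p.1) (e0 p.2) (e2 p.2))
      (fun i => vY a b (n i) (e1 i) (e3 i))
      (fun p => mul_ne_zero (inv_ne_zero (hO _).ne) (inv_ne_zero (hO _).ne))
      (fun p => TL_letter h2 hab (hO p.2))
      (fun i => by
        show n i ≠ 0
        exact (hO i).ne)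
      (by
        intro i p hip hpp
        rw [pair4 a b (n p.1) (n p.2) (n i) (e0 p.1) (e1 p.1) (e2 p.1) (e3 p.1) (e0 p.2) (e2 p.2)
          (e1 i) (e3 i) h2 hab (hO p.1).hs]
        refine mul_ne_zero (mul_ne_zero (pow_ne_zero _ ha0) ?_) ?_
        · intro h0
          rw [mul_comm (n p.1)] at h0
          exact hpp (hinj (Orb.indep h2 hab ha hb hne (hO p.2) (hO p.1) h0).symm)
        · intro h0
          exact hip (hinj (Orb.indep h2 hab ha hb hne (hO p.1) (hO i) h0).symm))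
      L' p hL
    rw [h]
    intro h0'
    have h00 := congrFun (congrFun h0' 0) 3
    rw [Matrix.smul_apply, Matrix.vecMulVec_apply, Matrix.zero_apply, smul_eq_mul] at h00
    have hpp : p.1 ≠ p.2 := hL.1 p List.mem_cons_self
    refine mul_ne_zero hc (mul_ne_zero ?_ hw) h00
    show (e0 p.1) ^ 2 * (Mf a b (e0 p.2) (e2 p.2) (e1 p.1) (e3 p.1) ^ 2 + n p.1 * n p.2) ≠ 0
    refine mul_ne_zero (pow_ne_zero _ (hO p.1).n0) ?_
    intro h0
    rw [mul_comm (n p.1)] at h0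
    exact hpp (hinj (Orb.indep h2 hab ha hb hne (hO p.2) (hO p.1) h0).symm)
  · intro i
    have h := hO i
    have e : (TL a b (e0 i) (e1 i) (e2 i) (e3 i) (n i) 0 0).coeff 0 =
        (e0 i) ^ 2 * (n i)⁻¹ * (e3 i) ^ 2 := by
      unfold TL G4 S4
      rw [Matrix.mul_apply, Fin.sum_univ_four, Polynomial.coeff_zero_eq_eval_zero]
      simp
    show (TL a b (e0 i) (e1 i) (e2 i) (e3 i) (n i) 0 0).coeff 0 *
      σ (σ ((TL a b (e0 i) (e1 i) (e2 i) (e3 i) (n i) 0 0).coeff 0)) = 1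
    rw [e]
    simp only [map_mul, map_pow, map_inv₀, h.fix, h.s0, h.s1, h.s3]
    have hn := h.ne
    have h1 : (n i)⁻¹ * n i = 1 := inv_mul_cancel₀ hn
    have h3 := h.hn
    calc _ = (e0 i * e1 i * e2 i * e3 i) ^ 2 * (n i)⁻¹ ^ 2 := by ring
      _ = 1 := by rw [← h3, ← mul_pow, mul_comm, h1, one_pow]

end Pool.Agent.K4H81.GU
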