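import Pool.Agent.H7R2.LG.GroupB

set_option autoImplicit false

/-! The subgroup of the norm one group given by a condition on the leading coefficient, and the
order of its finite quotients. -/

namespace Pool.Agent.K4H81.GU

open Matrix Polynomial Pool.Agent.H7R2.LG

section

variable {K : Type} [Field K] {d : ℕ} {σ : K →+* K} {μ : Subgroup Kˣ}

theorem lead_mul (M N : Gs d σ μ) :
    (PowerSeries.constantCoeff (B_mat (M * N) 0 0) : K) =
      PowerSeries.constantCoeff (B_mat M 0 0) * PowerSeries.constantCoeff (B_mat N 0 0) := by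
  rw [B_mat_mul, Matrix.mul_apply, map_sum, Finset.sum_eq_single 0]
  · rw [map_mul]
  · intro j _ hj
    obtain ⟨c, hc⟩ := inO_lower (B_sX (σ := σ)) (B_mat_inO N) j 0 (Fin.pos_of_ne_zero hj)
    rw [map_mul, hc, map_mul, PowerSeries.constantCoeff_X, zero_mul, mul_zero]
  · simp

/-- the leading coefficient -/
noncomputable def lead (d : ℕ) (σ : K →+* K) (μ : Subgroup Kˣ) : Gs d σ μ →* K where
  toFun M := PowerSeries.constantCoeff (B_mat M 0 0)
  map_one' := by rw [B_mat_one]; simp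
  map_mul' := lead_mul

/-- `y ↦ y σ²(y)` for the leading coefficient `y` -/
noncomputable def leadN (d : ℕ) (σ : K →+* K) (μ : Subgroup Kˣ) : Gs d σ μ →* K where
  toFun M := lead d σ μ M * σ (σ (lead d σ μ M))
  map_one' := by rw [map_one, map_one, map_one, mul_one]
  map_mul' M N := by rw [map_mul, map_mul, map_mul]; ring

/-- The subgroup of elements with `y σ²(y) = 1` for the leading coefficient `y`. -/
noncomputable def Hy (d : ℕ) (σ : K →+* K) (μ : Subgroup Kˣ) : Subgroup (Gs d σ μ) :=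
  (leadN d σ μ).toHomUnits.ker

theorem mem_Hy (M : Gs d σ μ) : M ∈ Hy d σ μ ↔
    (PowerSeries.constantCoeff (B_mat M 0 0) : K) *
      σ (σ (PowerSeries.constantCoeff (B_mat M 0 0))) = 1 := by
  unfold Hy
  rw [MonoidHom.mem_ker, Units.ext_iff]
  rfl

theorem BN_one_le : B_N d σ μ 1 ≤ Hy d σ μ := by
  rintro M ⟨N, hN, hM⟩
  rw [mem_Hy]
  have h1 : (PowerSeries.constantCoeff (B_mat M 0 0) : K) = 1 := by
    have h2 := congrFun (congrFun hM 0) 0
    rw [pow_one, A2a_mul_zero, Matrix.sub_apply, Matrix.one_apply_eq] at h2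
    have h3 := congrArg (⇑(PowerSeries.constantCoeff (R := K))) h2
    rw [map_sub, map_one, map_mul, PowerSeries.constantCoeff_X, mul_zero, sub_eq_zero] at h3
    exact h3
  rw [h1, map_one, map_one, mul_one]

theorem BN_anti {m n : ℕ} (h : m ≤ n) : B_N d σ μ n ≤ B_N d σ μ m := by
  induction n, h using Nat.le_induction with
  | base => exact le_rfl
  | succ n _ ih => exact (B_N_succ n).trans ih

theorem relIndex_one [Finite K] :
    (B_N d σ μ 1).relIndex (Hy d σ μ) ≤ Nat.card {y : K // y * σ (σ y) = 1} ∧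
      (B_N d σ μ 1).relIndex (Hy d σ μ) ≠ 0 := by
  refine B_relIndex _ _ (T := {y : K // y * σ (σ y) = 1})
    (fun M => ⟨PowerSeries.constantCoeff (B_mat (M : Gs d σ μ) 0 0), ?_⟩) ?_
  · exact (mem_Hy _).1 M.2
  · intro a a' h
    rw [Subtype.mk.injEq] at h
    refine B_next (A := B_mat (a' : Gs d σ μ) - B_mat (a : Gs d σ μ)) _ _
      ((B_mat_inO _).sub (B_mat_inO _)) ?_ ?_
    · rw [Matrix.sub_apply, map_sub, h, sub_self]
    · rw [pow_zero, Matrix.mul_one]

theorem relIndex_Hy [Finite K] (m : ℕ) :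
    (B_N d σ μ (m + 1)).relIndex (Hy d σ μ) ≤
        Nat.card {y : K // y * σ (σ y) = 1} * ∏ i ∈ Finset.range m, wt d σ μ (i + 1) ∧
      (B_N d σ μ (m + 1)).relIndex (Hy d σ μ) ≠ 0 := by
  induction m with
  | zero => simpa using relIndex_one
  | succ m ih =>
    obtain ⟨h1, h2⟩ := B_step (d := d) (σ := σ) (μ := μ) (m + 1)
    rw [← Subgroup.relIndex_mul_relIndex _ _ _ (B_N_succ (m + 1))
      ((BN_anti (by omega)).trans BN_one_le)]
    refine ⟨?_, mul_ne_zero h2 ih.2⟩
    rw [Finset.prod_range_succ, ← mul_assoc, mul_comm]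
    exact Nat.mul_le_mul ih.1 h1

end

theorem grpY {K : Type} [Field K] [Finite K] (d : ℕ) (σ : K →+* K) (μ : Subgroup Kˣ) (m : ℕ) :
    ∃ (G : Type) (_ : Group G) (_ : Finite G) (f : Hy d σ μ →* G),
      Nat.card G ≤ Nat.card {y : K // y * σ (σ y) = 1} *
        ∏ i ∈ Finset.range m, wt d σ μ (i + 1) ∧ ∀ M : Hy d σ μ, f M = 1 →
        ∃ N : Matrix (Fin (d + 1)) (Fin (d + 1)) (PowerSeries K),
          ((M : GL (Fin (d + 1)) (PowerSeries K)) :
            Matrix (Fin (d + 1)) (Fin (d + 1)) (PowerSeries K)) - 1 =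
            N * (Pm d (PowerSeries.X : PowerSeries K)) ^ (m + 1) := by
  have := B_N_normal (d := d) (σ := σ) (μ := μ) (m + 1)
  obtain ⟨h1, h2⟩ := relIndex_Hy (d := d) (σ := σ) (μ := μ) m
  refine ⟨Hy d σ μ ⧸ (B_N d σ μ (m + 1)).subgroupOf (Hy d σ μ), inferInstance,
    Nat.finite_of_card_ne_zero h2, QuotientGroup.mk' _, h1, ?_⟩
  intro M hM
  have hM' : M ∈ (B_N d σ μ (m + 1)).subgroupOf (Hy d σ μ) := (QuotientGroup.eq_one_iff M).mp hM
  rw [Subgroup.mem_subgroupOf] at hM'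
  obtain ⟨N, -, hN⟩ := hM'
  exact ⟨N, hN⟩

end Pool.Agent.K4H81.GU
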