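import Pool.Agent.H7R2.LG.GraphD
import Pool.Agent.K4H81.GU.Dat
import Pool.Agent.K4H81.GU.Grp

set_option autoImplicit false

/-! The graphs of the data, with the small group of leading coefficients. -/

namespace Pool.Agent.K4H81.GU

open Matrix Polynomial Pool.Agent.H7R2.LG

theorem lead_mul' {K : Type} [Field K] {d : ℕ} {σ : K →+* K}
    {M N : Matrix (Fin (d + 1)) (Fin (d + 1)) (PowerSeries K)}
    (hN : InO (PowerSeries.map σ) (PowerSeries.X : PowerSeries K) N) :
    (PowerSeries.constantCoeff ((M * N) 0 0) : K) =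
      PowerSeries.constantCoeff (M 0 0) * PowerSeries.constantCoeff (N 0 0) := by
  rw [Matrix.mul_apply, map_sum, Finset.sum_eq_single 0]
  · rw [map_mul]
  · intro j _ hj
    obtain ⟨c, hc⟩ := inO_lower (B_sX (σ := σ)) hN j 0 (Fin.pos_of_ne_zero hj)
    rw [map_mul, hc, map_mul, PowerSeries.constantCoeff_X, zero_mul, mul_zero]
  · simp

theorem cs_isUnit {K : Type} [Field K] (l : K[X]) (hl : IsCoprime (X : K[X]) l) :
    IsUnit (AB_cs K l) := by
  rw [PowerSeries.isUnit_iff_constantCoeff]
  have h1 : PowerSeries.constantCoeff (AB_cs K l) = l.coeff 0 := by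
    rw [AB_cs_apply, ← PowerSeries.coeff_zero_eq_constantCoeff_apply, Polynomial.coeff_coe]
  rw [h1]
  obtain ⟨u, v, huv⟩ := hl
  have h2 := congrArg (fun p : K[X] => p.coeff 0) huv
  simp only [Polynomial.coeff_add, Polynomial.mul_coeff_zero, Polynomial.coeff_X_zero, mul_zero,
    zero_add, Polynomial.coeff_one_zero] at h2
  exact IsUnit.mk0 _ (right_ne_zero_of_mul_eq_one h2)

theorem graphY {K : Type} [Field K] [Finite K] {d : ℕ} {ι : Type} [Fintype ι] [DecidableEq ι]
    (D : Dat K d ι) (hk : D.k = 2)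
    (hy : ∀ i, (D.T i 0 0).coeff 0 * D.σ (D.σ ((D.T i 0 0).coeff 0)) = 1)
    (m : ℕ) (hm : 1 ≤ m) :
    ∃ (V : Type) (_ : Fintype V) (_ : Nonempty V) (Γ : SimpleGraph V) (_ : DecidableRel Γ.Adj),
      Γ.IsRegularOfDegree (Fintype.card ι) ∧ ((2 * (m + 1) : ℕ) : ℕ∞) ≤ Γ.egirth ∧
      Γ.Colorable 2 ∧
      Fintype.card V ≤ 2 * (Nat.card {y : K // y * D.σ (D.σ y) = 1} *
        ∏ i ∈ Finset.range m, wt d D.σ (⊥ : Subgroup Kˣ) (i + 1)) := by
  obtain ⟨G, hG, hGf, f, hcard, hf⟩ := grpY d D.σ (⊥ : Subgroup Kˣ) m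
  -- the letters
  obtain ⟨t, ht⟩ : ∃ t : ι → G, ∀ L : List (ι × ι), Red L → L ≠ [] → L.length < m + 1 →
      (L.map fun p => t p.1 * (t p.2)⁻¹).prod ≠ 1 := by
    rcases isEmpty_or_nonempty ι with hι | ⟨⟨i0⟩⟩
    · refine ⟨fun i => (hι.false i).elim, fun L _ hne _ => ?_⟩
      obtain ⟨p, hp⟩ := List.exists_mem_of_ne_nil L hne
      exact (hι.false p.1).elim
    · have hdet : ∀ i, ((D.T i).map (AB_cs K)).det = AB_cs K D.l := by
        intro i
        rw [← D.hdet i, RingHom.map_det, RingHom.mapMatrix_apply]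
      have hu : ∀ i, IsUnit ((D.T i).map (AB_cs K)).det := fun i => by
        rw [hdet]; exact cs_isUnit _ D.hl1
      obtain ⟨g, hg⟩ : ∃ g : ι → GL (Fin (d + 1)) (PowerSeries K),
          ∀ i, (g i : Matrix (Fin (d + 1)) (Fin (d + 1)) (PowerSeries K)) =
            (D.T i).map (AB_cs K) :=
        ⟨fun i => Matrix.GeneralLinearGroup.mk'' _ (hu i), fun i => rfl⟩
      have hg1 : ∀ i, (g i : Matrix (Fin (d + 1)) (Fin (d + 1)) (PowerSeries K)) *
          ((g i)⁻¹ : GL (Fin (d + 1)) (PowerSeries K)) = 1 := fun i => by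
        rw [← Units.val_mul]; simp
      have hg2 : ∀ i, (((g i)⁻¹ : GL (Fin (d + 1)) (PowerSeries K)) :
          Matrix (Fin (d + 1)) (Fin (d + 1)) (PowerSeries K)) * g i = 1 := fun i => by
        rw [← Units.val_mul]; simp
      have hgO : ∀ i, InO (PowerSeries.map D.σ) (PowerSeries.X : PowerSeries K)
          (g i : Matrix (Fin (d + 1)) (Fin (d + 1)) (PowerSeries K)) := by
        intro i
        rw [hg]; exact AB_inO _ (D.hT i)
      have hmem : ∀ i, g i * (g i0)⁻¹ ∈ Gs d D.σ (⊥ : Subgroup Kˣ) := by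
        intro i
        refine ⟨?_, ?_⟩
        · rw [Units.val_mul]
          exact InO.mul (hgO i) ((hgO i0).inv (hg1 i0) (hg2 i0))
        · refine ⟨1, one_mem _, ?_⟩
          have h2 := congrArg Matrix.det (hg1 i0)
          rw [Matrix.det_mul, Matrix.det_one] at h2
          have h3 : (g i : Matrix (Fin (d + 1)) (Fin (d + 1)) (PowerSeries K)).det =
                (g i0 : Matrix (Fin (d + 1)) (Fin (d + 1)) (PowerSeries K)).det := by
            rw [hg, hg, hdet, hdet]
          rw [Units.val_mul, Matrix.det_mul, h3, h2]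
          simp
      have hgy : ∀ i, (PowerSeries.constantCoeff
          ((g i : Matrix (Fin (d + 1)) (Fin (d + 1)) (PowerSeries K)) 0 0) : K) =
          (D.T i 0 0).coeff 0 := by
        intro i
        rw [hg, Matrix.map_apply, AB_cs_apply, ← PowerSeries.coeff_zero_eq_constantCoeff_apply,
          Polynomial.coeff_coe]
      have hmemy : ∀ i, (⟨g i * (g i0)⁻¹, hmem i⟩ : Gs d D.σ (⊥ : Subgroup Kˣ)) ∈
          Hy d D.σ (⊥ : Subgroup Kˣ) := by
        intro i
        rw [mem_Hy]
        have e1 : (PowerSeries.constantCoeff (B_mat (⟨g i * (g i0)⁻¹, hmem i⟩ :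
            Gs d D.σ (⊥ : Subgroup Kˣ)) 0 0) : K) * (D.T i0 0 0).coeff 0 =
            (D.T i 0 0).coeff 0 := by
          rw [← hgy i0, ← hgy i, ← lead_mul' (hgO i0)]
          congr 1
          unfold B_mat
          rw [← Units.val_mul, inv_mul_cancel_right]
        generalize PowerSeries.constantCoeff (B_mat (⟨g i * (g i0)⁻¹, hmem i⟩ :
            Gs d D.σ (⊥ : Subgroup Kˣ)) 0 0) = y at e1
        have e2 := hy i
        rw [← e1, map_mul, map_mul] at e2
        have e3 := hy i0
        calc y * D.σ (D.σ y) = (y * D.σ (D.σ y)) *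
              ((D.T i0 0 0).coeff 0 * D.σ (D.σ ((D.T i0 0 0).coeff 0))) := by
              rw [e3, mul_one]
          _ = 1 := by rw [← e2]; ring
      obtain ⟨s, hs⟩ : ∃ s : ι → Hy d D.σ (⊥ : Subgroup Kˣ), ∀ i,
          ((Gs d D.σ (⊥ : Subgroup Kˣ)).subtype.comp (Hy d D.σ (⊥ : Subgroup Kˣ)).subtype) (s i) =
            g i * (g i0)⁻¹ :=
        ⟨fun i => ⟨⟨g i * (g i0)⁻¹, hmem i⟩, hmemy i⟩, fun i => rfl⟩
      refine ⟨fun i => f (s i), fun L hL hne hlen hprod => ?_⟩
      -- the product in `Hy`
      obtain ⟨M, hM1⟩ : ∃ M : Hy d D.σ (⊥ : Subgroup Kˣ),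
        M = (L.map fun p => s p.1 * (s p.2)⁻¹).prod := ⟨_, rfl⟩
      have hM : f M = 1 := by
        rw [← hprod, hM1, map_list_prod, List.map_map]
        refine congrArg List.prod (List.map_congr_left fun p _ => ?_)
        rw [Function.comp_apply, map_mul, map_inv]
      obtain ⟨N, hN⟩ := hf M hM
      have hMv : ((M : Gs d D.σ (⊥ : Subgroup Kˣ)) : GL (Fin (d + 1)) (PowerSeries K)) =
          (L.map fun p => g p.1 * (g p.2)⁻¹).prod := by
        have h1 : ((M : Gs d D.σ (⊥ : Subgroup Kˣ)) : GL (Fin (d + 1)) (PowerSeries K)) =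
          ((Gs d D.σ (⊥ : Subgroup Kˣ)).subtype.comp (Hy d D.σ (⊥ : Subgroup Kˣ)).subtype) M :=
            rfl
        rw [h1, hM1, map_list_prod, List.map_map]
        refine congrArg List.prod (List.map_congr_left fun p _ => ?_)
        rw [Function.comp_apply, map_mul, map_inv, hs, hs]
        group
      -- clearing denominators
      have key : ∀ L : List (ι × ι), AB_cs K ((L.map fun p => (D.T p.2).det).prod) •
          (((L.map fun p => g p.1 * (g p.2)⁻¹).prod : GL (Fin (d + 1)) (PowerSeries K)) :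
            Matrix (Fin (d + 1)) (Fin (d + 1)) (PowerSeries K)) =
          (L.map fun p => D.T p.1 * (D.T p.2).adjugate).prod.map (AB_cs K) := by
        intro L
        induction L with
        | nil =>
          simp only [List.map_nil, List.prod_nil, map_one, Units.val_one, one_smul]
          rw [Matrix.map_one _ (map_zero _) (map_one _)]
        | cons p L ih =>
          simp only [List.map_cons, List.prod_cons, map_mul, Units.val_mul]
          rw [Matrix.map_mul, ← ih]
          have h1 : AB_cs K (D.T p.2).det •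
              (((g p.2)⁻¹ : GL (Fin (d + 1)) (PowerSeries K)) :
                Matrix (Fin (d + 1)) (Fin (d + 1)) (PowerSeries K)) =
              (D.T p.2).adjugate.map (AB_cs K) := by
            have h2 := AB_adj (g p.2)
            rw [hg] at h2
            have h3 : ((D.T p.2).map (AB_cs K)).det = AB_cs K (D.T p.2).det := by
              rw [RingHom.map_det, RingHom.mapMatrix_apply]
            have h4 : ((D.T p.2).map (AB_cs K)).adjugate = (D.T p.2).adjugate.map (AB_cs K) := by
              have := RingHom.map_adjugate (AB_cs K) (D.T p.2)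
              simpa only [RingHom.mapMatrix_apply] using this.symm
            rw [← h4, ← h2, h3]
          rw [Matrix.map_mul, ← h1, hg]
          simp only [Matrix.smul_mul, Matrix.mul_smul, smul_smul]
          rw [mul_comm]
      have hkey := key L
      rw [← hMv] at hkey
      have hgirth := girthA2 D L hL hne (m + 1) (by
        apply AB_dvd
        rw [RingHom.map_det, RingHom.mapMatrix_apply]
        have h5 : (((L.map fun p => (D.T p.2).det).prod •
            (1 : Matrix (Fin (d + 1)) (Fin (d + 1)) K[X]) -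
            (L.map fun p => D.T p.1 * (D.T p.2).adjugate).prod).map (AB_cs K)) =
            (-(AB_cs K ((L.map fun p => (D.T p.2).det).prod) • N)) *
              (Pm d (PowerSeries.X : PowerSeries K)) ^ (m + 1) := by
          rw [Matrix.neg_mul, Matrix.smul_mul, ← hN, smul_sub, hkey]
          ext i j
          simp only [Matrix.map_apply, Matrix.sub_apply, Matrix.neg_apply, Matrix.smul_apply,
            smul_eq_mul, map_sub, map_mul]
          by_cases hij : i = j
          · subst hij; simp
          · simp [Matrix.one_apply_ne hij]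
        rw [h5, Matrix.det_mul, Matrix.det_pow, pm_det, mul_pow]
        exact Dvd.dvd.mul_left (Dvd.intro_left _ rfl) _)
      rw [hk] at hgirth
      omega
  obtain ⟨V, hV, Γ, hdec, hreg, hgi, hcol, hVc⟩ := graphC t (m + 1) (by omega) ht
  refine ⟨V, hV, ?_, Γ, hdec, hreg, hgi, hcol, ?_⟩
  · rw [← Fintype.card_pos_iff, hVc]
    have : 0 < Nat.card G := Nat.card_pos
    omega
  · rw [hVc]; exact Nat.mul_le_mul_left _ hcard

end Pool.Agent.K4H81.GU
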