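import Pool.Agent.K4H81.GU.Cnt
import Pool.Agent.K4H81.GU.Dtm
import Pool.Agent.K4H81.GU.Gra

set_option autoImplicit false

/-! The graphs. -/

namespace Pool.Agent.K4H81.GU

open Matrix Polynomial Pool.Agent.H7R2.LG

theorem exists_a {K : Type} [Field K] [Finite K] (q : ℕ) (hq : 1 < q)
    (hK : Nat.card K = q ^ 4) : ∃ a : K, a ^ (q + 1) = 1 ∧ a ≠ 1 := by
  obtain ⟨g, hg⟩ := IsCyclic.exists_ofOrder_eq_natCard (α := Kˣ)
  rw [Nat.card_units, hK] at hg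
  have h1 : q ^ 4 - 1 = (q - 1) * (q ^ 2 + 1) * (q + 1) := by
    obtain ⟨r, rfl⟩ : ∃ r, q = r + 1 := ⟨q - 1, by omega⟩
    rw [Nat.add_sub_cancel]
    have : (r + 1) ^ 4 = r * ((r + 1) ^ 2 + 1) * (r + 1 + 1) + 1 := by ring
    omega
  have h0 : 0 < (q - 1) * (q ^ 2 + 1) := Nat.mul_pos (by omega) (by positivity)
  refine ⟨((g ^ ((q - 1) * (q ^ 2 + 1)) : Kˣ) : K), ?_, ?_⟩
  · rw [← Units.val_pow_eq_pow_val, ← pow_mul, ← h1, ← hg, pow_orderOf_eq_one, Units.val_one]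
  · intro h
    have h3 : g ^ ((q - 1) * (q ^ 2 + 1)) = 1 := Units.ext h
    have h4 := orderOf_dvd_of_pow_eq_one h3
    rw [hg, h1] at h4
    have h5 := Nat.le_of_dvd h0 h4
    nlinarith

/-- `δ`-regular graphs, `δ ≤ q³ - q`, `q` a power of two. -/
theorem coreU (f : ℕ) (hf : 1 ≤ f) (δ : ℕ) (hδ : δ ≤ (2 ^ f) ^ 3 - 2 ^ f) (m : ℕ) (hm : 1 ≤ m) :
    ∃ (V : Type) (_ : Fintype V) (_ : Nonempty V) (Γ : SimpleGraph V) (_ : DecidableRel Γ.Adj),
      Γ.IsRegularOfDegree δ ∧ ((2 * (m + 1) : ℕ) : ℕ∞) ≤ Γ.egirth ∧ Γ.Colorable 2 ∧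
      Fintype.card V ≤ 2 * (((2 ^ f) ^ 2 + 1) * (2 ^ f) ^ (4 * m - m / 4)) := by
  classical
  obtain ⟨q, hq⟩ : ∃ q, q = 2 ^ f := ⟨_, rfl⟩
  rw [← hq] at hδ ⊢
  have hq1 : 1 < q := by rw [hq]; exact Nat.one_lt_pow (by omega) (by norm_num)
  have : Fact (Nat.Prime 2) := ⟨Nat.prime_two⟩
  have hK : Nat.card (GaloisField 2 (4 * f)) = q ^ 4 := by
    rw [GaloisField.card 2 (4 * f) (by omega), hq, ← pow_mul, mul_comm]
  have : Finite (GaloisField 2 (4 * f)) := Nat.finite_of_card_ne_zero (by rw [hK]; positivity)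
  obtain ⟨σ, hσ⟩ : ∃ σ : GaloisField 2 (4 * f) →+* GaloisField 2 (4 * f), ∀ a, σ a = a ^ q :=
    ⟨iterateFrobenius (GaloisField 2 (4 * f)) 2 f, fun a => by
      rw [iterateFrobenius_def, hq]⟩
  have h2 : (2 : GaloisField 2 (4 * f)) = 0 := by
    have := CharP.cast_eq_zero (GaloisField 2 (4 * f)) 2
    exact_mod_cast this
  obtain ⟨a, ha, ha1⟩ := exists_a (K := GaloisField 2 (4 * f)) q hq1 hK
  have hqpow : ∀ x : GaloisField 2 (4 * f), x ^ (q ^ 4) = x := fun x => by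
    have := Fintype.ofFinite (GaloisField 2 (4 * f))
    rw [← hK, Nat.card_eq_fintype_card]
    exact FiniteField.pow_card x
  have hs4 : ∀ x : GaloisField 2 (4 * f), σ (σ (σ (σ x))) = x := by
    intro x
    rw [hσ, hσ, hσ, hσ, ← pow_mul, ← pow_mul, ← pow_mul]
    rw [show q * (q * (q * q)) = q ^ 4 by ring, hqpow]
  obtain ⟨b, hb⟩ : ∃ b, b = σ a := ⟨_, rfl⟩
  have hab : a * b = 1 := by rw [hb, hσ, ← ha, pow_succ, mul_comm a]
  have hba : σ b = a := by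
    have ha0 : b ≠ 0 := right_ne_zero_of_mul_eq_one hab
    apply mul_right_cancel₀ ha0
    rw [hab]
    have h3 := congrArg σ hab
    rw [map_mul, ← hb, map_one] at h3
    rw [mul_comm (σ b)]; exact h3
  have hb0 : b ≠ 0 := right_ne_zero_of_mul_eq_one hab
  have hcard := card_let (K := GaloisField 2 (4 * f)) q hq1 hK h2 σ hσ a b hb0 hb.symm hba
  -- the letters
  have hle : δ ≤ Nat.card {e : GaloisField 2 (4 * f) // IsLet σ a b e} := hδ.trans hcard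
  have : Fintype {e : GaloisField 2 (4 * f) // IsLet σ a b e} := Fintype.ofFinite _
  obtain ⟨emb⟩ : Nonempty (Fin δ ↪ {e : GaloisField 2 (4 * f) // IsLet σ a b e}) := by
    apply Function.Embedding.nonempty_of_card_le
    rw [Fintype.card_fin, ← Nat.card_eq_fintype_card]
    exact hle
  obtain ⟨D, hDσ, hDk, hDT⟩ := datumU σ a b h2 hab hb.symm hba ha1 (ι := Fin δ)
    (fun i => (emb i).1) _ _ _ _ (fun i => (emb i).2.orb (hs4 _))
    (fun i j hij => emb.injective (Subtype.ext hij))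
  obtain ⟨V, hV, hVn, Γ, hdec, h1, h3, h4, h5⟩ := graphY D hDk (by rw [hDσ]; exact hDT) m hm
  refine ⟨V, hV, hVn, Γ, hdec, ?_, h3, h4, h5.trans ?_⟩
  · rwa [Fintype.card_fin] at h1
  · rw [hDσ]
    exact Nat.mul_le_mul_left _ (bndU q hq1 hK σ hσ m)

end Pool.Agent.K4H81.GU
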