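import Pool.Agent.H7R2.LG.Order

set_option autoImplicit false

/-! The letters: matrices over `K[X]` in the cyclic algebra of degree four. -/

namespace Pool.Agent.K4H81.GU

open Matrix Polynomial Pool.Agent.H7R2.LG

/-- the basic matrix -/
def S4 {R : Type*} [CommRing R] (x a b n e0 e1 e2 e3 : R) : Matrix (Fin 4) (Fin 4) R :=
  !![e3 ^ 2, n, -(b ^ 2 * e1 ^ 2), 0;
     0, e0 ^ 2, n, -(a ^ 2 * e2 ^ 2);
     -(x * (b ^ 2 * e3 ^ 2)), 0, e1 ^ 2, n;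
     x * n, -(x * (a ^ 2 * e0 ^ 2)), 0, e2 ^ 2]

/-- a diagonal matrix -/
def G4 {R : Type*} [CommRing R] (d0 d1 d2 d3 : R) : Matrix (Fin 4) (Fin 4) R :=
  !![d0, 0, 0, 0; 0, d1, 0, 0; 0, 0, d2, 0; 0, 0, 0, d3]

/-- the hermitian form, times `x` -/
def J4 {R : Type*} [CommRing R] (x a b : R) : Matrix (Fin 4) (Fin 4) R :=
  !![0, b * x, 0, -a; -(b * x), 0, a * x, 0; 0, -(a * x), 0, b * x; a * x ^ 2, 0, -(b * x), 0]

/-- the value of the hermitian form, times `x` -/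
def Th4 {R : Type*} [CommRing R] (x a b : R) : Matrix (Fin 4) (Fin 4) R :=
  !![0, b - a ^ 3 * x, 0, b ^ 3 - a * x; a ^ 3 * x - b * x ^ 2, 0, a - b ^ 3 * x, 0;
     0, b ^ 3 * x - a * x ^ 2, 0, b - a ^ 3 * x; a * x - b ^ 3 * x ^ 2, 0, a ^ 3 * x - b * x ^ 2, 0]

theorem S4_map {R S : Type*} [CommRing R] [CommRing S] (f : R →+* S)
    (x a b n e0 e1 e2 e3 : R) : (S4 x a b n e0 e1 e2 e3).map f =
      S4 (f x) (f a) (f b) (f n) (f e0) (f e1) (f e2) (f e3) := by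
  unfold S4
  ext i j
  fin_cases i <;> fin_cases j <;> simp

theorem G4_map {R S : Type*} [CommRing R] [CommRing S] (f : R →+* S)
    (d0 d1 d2 d3 : R) : (G4 d0 d1 d2 d3).map f = G4 (f d0) (f d1) (f d2) (f d3) := by
  unfold G4
  ext i j
  fin_cases i <;> fin_cases j <;> simp

theorem J4_map {R S : Type*} [CommRing R] [CommRing S] (f : R →+* S)
    (x a b : R) : (J4 x a b).map f = J4 (f x) (f a) (f b) := by
  unfold J4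
  ext i j
  fin_cases i <;> fin_cases j <;> simp

theorem det4 {R : Type*} [CommRing R] (m00 m01 m02 m03 m10 m11 m12 m13 m20 m21 m22 m23
    m30 m31 m32 m33 : R) :
    (!![m00, m01, m02, m03; m10, m11, m12, m13; m20, m21, m22, m23; m30, m31, m32, m33] :
      Matrix (Fin 4) (Fin 4) R).det =
    m00 * (m11 * (m22 * m33 - m23 * m32) - m12 * (m21 * m33 - m23 * m31) +
        m13 * (m21 * m32 - m22 * m31)) -
      m01 * (m10 * (m22 * m33 - m23 * m32) - m12 * (m20 * m33 - m23 * m30) +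
        m13 * (m20 * m32 - m22 * m30)) +
      m02 * (m10 * (m21 * m33 - m23 * m31) - m11 * (m20 * m33 - m23 * m30) +
        m13 * (m20 * m31 - m21 * m30)) -
      m03 * (m10 * (m21 * m32 - m22 * m31) - m11 * (m20 * m32 - m22 * m30) +
        m12 * (m20 * m31 - m21 * m30)) := by
  have h1 : Fin.succAbove (1 : Fin 4) (2 : Fin 3) = 3 := rfl
  have h2 : Fin.succAbove (2 : Fin 4) (1 : Fin 3) = 1 := rfl
  have h3 : Fin.succAbove (3 : Fin 4) (1 : Fin 3) = 1 := rfl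
  have h4 : Fin.succAbove (2 : Fin 4) (2 : Fin 3) = 3 := rfl
  have h5 : Fin.succAbove (3 : Fin 4) (2 : Fin 3) = 2 := rfl
  rw [Matrix.det_succ_row_zero, Fin.sum_univ_four]
  simp [Matrix.det_fin_three, Fin.succAbove, Fin.lt_def]
  ring

theorem J4_det {K : Type} [Field K] (a b : K) (ha : a ≠ 0) (hb : b ≠ 0) :
    (J4 (X : K[X]) (C a) (C b)).det ≠ 0 := by
  unfold J4
  rw [det4]
  have e : (0 : K[X]) * (0 * (0 * 0 - C b * X * -(C b * X)) - C a * X * (-(C a * X) * 0 - C b * X * 0) +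
        0 * (-(C a * X) * -(C b * X) - 0 * 0)) -
      C b * X * (-(C b * X) * (0 * 0 - C b * X * -(C b * X)) - C a * X * (0 * 0 - C b * X * (C a * X ^ 2)) +
        0 * (0 * -(C b * X) - 0 * (C a * X ^ 2))) +
      0 * (-(C b * X) * (-(C a * X) * 0 - C b * X * 0) - 0 * (0 * 0 - C b * X * (C a * X ^ 2)) +
        0 * (0 * 0 - -(C a * X) * (C a * X ^ 2))) -
      -C a * (-(C b * X) * (-(C a * X) * -(C b * X) - 0 * 0) - 0 * (0 * -(C b * X) - 0 * (C a * X ^ 2)) +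
        C a * X * (0 * 0 - -(C a * X) * (C a * X ^ 2))) =
      X ^ 3 * ((C b ^ 2 * X - C a ^ 2) * (C b ^ 2 - C a ^ 2 * X)) := by ring
  rw [e]
  refine mul_ne_zero (pow_ne_zero _ X_ne_zero) (mul_ne_zero ?_ ?_)
  · intro h
    have h2 := congrArg (Polynomial.eval 0) h
    simp at h2
    exact ha h2
  · intro h
    have h2 := congrArg (Polynomial.eval 0) h
    simp at h2
    exact hb h2

theorem S4_inO {R : Type*} [CommRing R] (s : R →+* R) (x a b n e0 e1 e2 e3 : R)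
    (hx : s x = x) (ha : s a = b) (hb : s b = a) (hn : s n = n) (h0 : s e0 = e1) (h1 : s e1 = e2)
    (h2 : s e2 = e3) (h3 : s e3 = e0) : InO s x (S4 x a b n e0 e1 e2 e3) := by
  unfold InO
  rw [S4_map, hx, ha, hb, hn, h0, h1, h2, h3]
  have hP : (Pm 3 x : Matrix (Fin 4) (Fin 4) R) =
      !![0, 1, 0, 0; 0, 0, 1, 0; 0, 0, 0, 1; x, 0, 0, 0] := by
    ext1 i j
    fin_cases i <;> fin_cases j <;> simp [Pm]
  rw [hP]
  unfold S4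
  ext1 i j
  fin_cases i <;> fin_cases j <;>
    simp [Matrix.mul_apply, Fin.sum_univ_four, mul_comm]

theorem G4_inO {R : Type*} [CommRing R] (s : R →+* R) (x d0 d1 d2 d3 : R)
    (h0 : s d0 = d1) (h1 : s d1 = d2)
    (h2 : s d2 = d3) (h3 : s d3 = d0) : InO s x (G4 d0 d1 d2 d3) := by
  unfold InO
  rw [G4_map, h0, h1, h2, h3]
  have hP : (Pm 3 x : Matrix (Fin 4) (Fin 4) R) =
      !![0, 1, 0, 0; 0, 0, 1, 0; 0, 0, 0, 1; x, 0, 0, 0] := by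
    ext1 i j
    fin_cases i <;> fin_cases j <;> simp [Pm]
  rw [hP]
  unfold G4
  ext1 i j
  fin_cases i <;> fin_cases j <;>
    simp [Matrix.mul_apply, Fin.sum_univ_four, mul_comm]

theorem S4_det {R : Type*} [CommRing R] (x a b e0 e1 e2 e3 : R) (hab : a * b = 1)
    (hc : (e0*e1*e2*e3) ^ 2 + b ^ 2 * (e0 ^ 2 * e1 ^ 2 + e2 ^ 2 * e3 ^ 2) +
      a ^ 2 * (e1 ^ 2 * e2 ^ 2 + e0 ^ 2 * e3 ^ 2) = 0) :
    (S4 x a b (e0 * e1 * e2 * e3) e0 e1 e2 e3).det =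
      (e0 * e1 * e2 * e3) ^ 2 * (1 - (a ^ 4 + b ^ 4) * x + x ^ 2) := by
  unfold S4
  rw [det4]
  linear_combination (-e0^2*e1^2*e2^2*e3^2*x) * hc + (e0^2*e1^2*e2^2*e3^2*a^3*b^3*x^2 + e0^2*e1^2*e2^2*e3^2*a^2*b^2*x^2 + e0^2*e1^2*e2^2*e3^2*a*b*x^2 + e0^2*e1^2*e2^2*e3^2*x^2) * hab

theorem G4_det {R : Type*} [CommRing R] (d0 d1 d2 d3 : R) :
    (G4 d0 d1 d2 d3).det = d0 * d1 * d2 * d3 := by
  unfold G4
  rw [det4]
  ring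

theorem S4_theta {R : Type*} [CommRing R] (x xi a b e0 e1 e2 e3 : R) (hx : x * xi = 1)
    (hab : a * b = 1)
    (hc : (e0*e1*e2*e3) ^ 2 + b ^ 2 * (e0 ^ 2 * e1 ^ 2 + e2 ^ 2 * e3 ^ 2) +
      a ^ 2 * (e1 ^ 2 * e2 ^ 2 + e0 ^ 2 * e3 ^ 2) = 0) :
    (S4 xi a b (e0 * e1 * e2 * e3) e0 e1 e2 e3)ᵀ * (G4 (e0 ^ 2) (e1 ^ 2) (e2 ^ 2) (e3 ^ 2) *
        J4 x a b * G4 (e0 ^ 2) (e1 ^ 2) (e2 ^ 2) (e3 ^ 2)) *
      S4 x a b (e0 * e1 * e2 * e3) e0 e1 e2 e3 = (e0 * e1 * e2 * e3) ^ 2 • Th4 x a b := by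
  have hDJD : G4 (e0 ^ 2) (e1 ^ 2) (e2 ^ 2) (e3 ^ 2) *
        J4 x a b * G4 (e0 ^ 2) (e1 ^ 2) (e2 ^ 2) (e3 ^ 2) =
      !![0, e0 ^ 2 * (b * x) * e1 ^ 2, 0, -(e0 ^ 2 * a * e3 ^ 2);
        -(e1 ^ 2 * (b * x) * e0 ^ 2), 0, e1 ^ 2 * (a * x) * e2 ^ 2, 0;
        0, -(e2 ^ 2 * (a * x) * e1 ^ 2), 0, e2 ^ 2 * (b * x) * e3 ^ 2;
        e3 ^ 2 * (a * x ^ 2) * e0 ^ 2, 0, -(e3 ^ 2 * (b * x) * e2 ^ 2), 0] := by
    unfold G4 J4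
    ext i j
    fin_cases i <;> fin_cases j <;> simp [Matrix.mul_apply, Fin.sum_univ_four]
  have hST : (S4 xi a b (e0 * e1 * e2 * e3) e0 e1 e2 e3)ᵀ =
      !![e3 ^ 2, 0, -(xi * (b ^ 2 * e3 ^ 2)), xi * (e0 * e1 * e2 * e3);
        e0 * e1 * e2 * e3, e0 ^ 2, 0, -(xi * (a ^ 2 * e0 ^ 2));
        -(b ^ 2 * e1 ^ 2), e0 * e1 * e2 * e3, e1 ^ 2, 0;
        0, -(a ^ 2 * e2 ^ 2), e0 * e1 * e2 * e3, e2 ^ 2] := by
    unfold S4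
    ext i j
    fin_cases i <;> fin_cases j <;> simp
  rw [hDJD, hST]
  unfold S4 Th4
  ext i j
  fin_cases i <;> fin_cases j
  all_goals simp [Matrix.mul_apply, Fin.sum_univ_four]
  · linear_combination (0) * hc + (0) * hab + (e0^3*e1*e2*e3^5*a*x) * hx
  · linear_combination (e0^2*e3^2*a*x) * hc + (-e0^4*e1^2*e3^2*b*x + e0^2*e1^2*e2^2*e3^2*b*x*xi + e0^2*e2^2*e3^4*a*b^2*x^2*xi + e0^2*e2^2*e3^4*b*x^2*xi - e0^2*e2^2*e3^4*b*x) * hab + (e0^4*e1^2*e2^2*e3^4*a*x + e0^2*e1^2*e2^2*e3^2*b + e0^2*e2^2*e3^4*b*x) * hx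
  · linear_combination (0) * hc + (-e0^3*e1^3*e2*e3^3*b*x^2*xi + e0*e1^3*e2^3*e3^3*b*x*xi) * hab + (-e0^3*e1^3*e2*e3^3*b*x) * hx
  · linear_combination (-e2^2*e3^2*b) * hc + (-e0^2*e1^2*e2^2*e3^2*a*x + e0^2*e2^2*e3^4*a - e1^2*e2^4*e3^2*a^2*b*x*xi - e1^2*e2^4*e3^2*a*x*xi + e1^2*e2^4*e3^2*a) * hab + (-e0^2*e1^2*e2^4*e3^4*b - e1^2*e2^4*e3^2*a - e2^4*e3^4*b^3) * hx
  · linear_combination (-e0^2*e3^2*a*x) * hc + (e0^4*e1^2*e3^2*b*x - e0^2*e1^2*e2^2*e3^2*b*x^2 - e0^2*e2^2*e3^4*a*b^2*x^2*xi - e0^2*e2^2*e3^4*b*x^2*xi + e0^2*e2^2*e3^4*b*x) * hab + (-e0^4*e3^4*a^3*x - e0^2*e2^2*e3^4*b*x) * hx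
  · linear_combination (0) * hc + (0) * hab + (-e0^5*e1*e2*e3^3*a^3*x) * hx
  · linear_combination (e0^2*e1^2*b*x) * hc + (e0^4*e1^2*e3^2*a^2*b*x^2*xi + e0^4*e1^2*e3^2*a*x^2*xi - e0^4*e1^2*e3^2*a*x - e0^2*e1^4*e2^2*a*x + e0^2*e1^2*e2^2*e3^2*a*x*xi) * hab + (e0^4*e1^2*e3^2*a*x + e0^2*e1^2*e2^2*e3^2*a) * hx
  · linear_combination (0) * hc + (-e0^3*e1^3*e2^3*e3*a*x + e0^3*e1*e2^3*e3^3*a*x*xi) * hab + (e0^3*e1*e2^3*e3^3*a) * hx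
  · linear_combination (0) * hc + (e0^3*e1^3*e2*e3^3*b*x - e0*e1^3*e2^3*e3^3*b*x^2) * hab + (0) * hx
  · linear_combination (-e0^2*e1^2*b*x) * hc + (-e0^4*e1^2*e3^2*a^2*b*x + e0^2*e1^4*e2^2*a*x - e0^2*e1^2*e2^2*e3^2*a*x^2) * hab + (0) * hx
  · linear_combination (0) * hc + (0) * hab + (0) * hx
  · linear_combination (e1^2*e2^2*a*x) * hc + (e0^2*e1^4*e2^2*a*b^2*x + e0^2*e1^2*e2^2*e3^2*b - e1^2*e2^4*e3^2*b*x) * hab + (0) * hx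
  · linear_combination (e2^2*e3^2*b*x^2) * hc + (e0^2*e1^2*e2^2*e3^2*a*x - e0^2*e2^2*e3^4*a*x^2 + e1^2*e2^4*e3^2*a^2*b*x^2) * hab + (0) * hx
  · linear_combination (0) * hc + (e0^3*e1^3*e2^3*e3*a*x - e0^3*e1*e2^3*e3^3*a*x^2) * hab + (0) * hx
  · linear_combination (-e1^2*e2^2*a*x) * hc + (-e0^2*e1^4*e2^2*a*b^2*x - e0^2*e1^2*e2^2*e3^2*b*x^2 + e1^2*e2^4*e3^2*b*x) * hab + (0) * hx
  · linear_combination (0) * hc + (0) * hab + (0) * hx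

end Pool.Agent.K4H81.GU
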