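import Pool.Agent.K4H81.GU.Cor
import Pool.Agent.H7R2.LG.Turan

set_option autoImplicit false

/-! From the graphs to all numbers of vertices. -/

namespace Pool.Agent.K4H81.GU

open Pool.Agent.H7R2.LG

theorem turanU (m : ℕ) (hm : 1 ≤ m) (n : ℕ) (hn : 4 * 2 ^ (4 * m + 2 - m / 4) ≤ n) :
    ∃ (Γ : SimpleGraph (Fin n)) (_ : DecidableRel Γ.Adj),
      ((2 * (m + 1) : ℕ) : ℕ∞) ≤ Γ.egirth ∧ Γ.Colorable 2 ∧
      1 / 256 * (n : ℝ) ^ (1 + (3 : ℝ) / ((4 * m + 2 - m / 4 : ℕ) : ℝ)) ≤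
        (Γ.edgeFinset.card : ℝ) := by
  set D : ℕ := 4 * m + 2 - m / 4 with hD
  have hD6 : 6 ≤ D := by omega
  have hDpos : (0 : ℝ) < D := by exact_mod_cast (by omega : 0 < D)
  -- choice of q
  set b : ℕ := 2 ^ D with hb
  have hb1 : 1 < b := by
    rw [hb]; exact Nat.one_lt_pow (by omega) (by norm_num)
  have hb0 : 0 < b := by omega
  have hn4 : b ≤ n / 4 := by
    rw [Nat.le_div_iff_mul_le (by norm_num)]; omega
  set a : ℕ := Nat.log b (n / 4) with ha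
  have ha1 : 1 ≤ a := Nat.log_pos hb1 hn4
  have hle : b ^ a ≤ n / 4 := Nat.pow_log_le_self b (by omega)
  have hlt : n / 4 < b ^ (a + 1) := Nat.lt_pow_succ_log_self hb1 _
  obtain ⟨V, _, _, Γ₀, _, hreg, hgirth, hcol, hcard⟩ := coreU a ha1 ((2 ^ a) ^ 3 - 2 ^ a) le_rfl m hm
  set q : ℕ := 2 ^ a with hq
  have hqb : q ^ D = b ^ a := by rw [hq, hb, ← pow_mul, ← pow_mul, mul_comm]
  have hq2 : 2 ≤ q := by
    calc 2 = 2 ^ 1 := by norm_num
      _ ≤ 2 ^ a := Nat.pow_le_pow_right (by norm_num) ha1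
  have hδ : q ^ 3 ≤ 2 * (q ^ 3 - q) := by
    have : 2 * q ≤ q ^ 3 := by
      have e : q ^ 3 = q ^ 2 * q := by ring
      rw [e]
      exact Nat.mul_le_mul_right _ (by nlinarith)
    omega
  set v := Fintype.card V with hv
  have hv0 : 0 < v := Fintype.card_pos
  have hvle : v ≤ 4 * q ^ D := by
    have h1 : q ^ 2 + 1 ≤ 2 * q ^ 2 := by
      have e3 : 1 ≤ q ^ 2 := Nat.one_le_pow _ _ (by omega)
      omega
    have h2 : D = 2 + (4 * m - m / 4) := by omega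
    calc v ≤ 2 * ((q ^ 2 + 1) * q ^ (4 * m - m / 4)) := hcard
      _ ≤ 2 * ((2 * q ^ 2) * q ^ (4 * m - m / 4)) := by gcongr
      _ = 4 * q ^ D := by rw [h2, pow_add]; ring
  have hvn : v ≤ n := by
    have h1 : 4 * (n / 4) ≤ n := Nat.mul_div_le n 4
    rw [hqb] at hvle
    omega
  set t := n / v with ht
  have ht1 : 1 ≤ t := Nat.div_pos hvn hv0
  have htn : t * v ≤ n := Nat.div_mul_le_self n v
  have htn2 : n < (t + 1) * v := by
    rw [ht]; exact Nat.lt_mul_of_div_lt (Nat.lt_succ_self _) hv0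
  obtain ⟨Γ, hdec, g1, g2, g3⟩ :=
    E2_copies Γ₀ (q ^ 3 - q) (2 * (m + 1)) n v t hreg hgirth hcol rfl hv0 htn
  refine ⟨Γ, hdec, g1, g2, ?_⟩
  -- n q^3 ≤ 8 E
  have hE : n * q ^ 3 ≤ 8 * Γ.edgeFinset.card := by
    have h1 : n ≤ 2 * (t * v) := by nlinarith
    calc n * q ^ 3 ≤ (2 * (t * v)) * (2 * (q ^ 3 - q)) := Nat.mul_le_mul h1 hδ
      _ = 4 * (t * v * (q ^ 3 - q)) := by ring
      _ ≤ 4 * (2 * Γ.edgeFinset.card) := Nat.mul_le_mul_left _ g3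
      _ = _ := by ring
  have hEr : (n : ℝ) * (q : ℝ) ^ 3 ≤ 8 * (Γ.edgeFinset.card : ℝ) := by exact_mod_cast hE
  -- upper bound for n
  have hnq : (n : ℝ) ≤ 4 * (2 * (q : ℝ)) ^ D := by
    have h1 : n < 4 * b ^ (a + 1) := by
      have := (Nat.div_lt_iff_lt_mul (by norm_num : 0 < 4)).1 hlt
      omega
    have h2 : b ^ (a + 1) = (2 * q) ^ D := by
      rw [pow_succ, ← hqb, mul_pow, mul_comm]
    rw [h2] at h1
    exact_mod_cast h1.le
  have hn0 : (0 : ℝ) ≤ n := Nat.cast_nonneg n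
  have hnpos : (0 : ℝ) < n := by
    have : 0 < n := lt_of_lt_of_le hv0 hvn
    exact_mod_cast this
  have hpow : (n : ℝ) ^ ((3 : ℝ) / D) ≤ 32 * (q : ℝ) ^ 3 := by
    have h1 : (n : ℝ) ^ ((3 : ℝ) / D) ≤ (4 * (2 * (q : ℝ)) ^ D) ^ ((3 : ℝ) / D) :=
      Real.rpow_le_rpow hn0 hnq (by positivity)
    rw [Real.mul_rpow (by norm_num) (by positivity)] at h1
    have h2 : ((2 * (q : ℝ)) ^ D) ^ ((3 : ℝ) / D) = (2 * (q : ℝ)) ^ 3 := by
      rw [← Real.rpow_natCast (2 * (q : ℝ)) D, ← Real.rpow_mul (by positivity)]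
      have h3 : (D : ℝ) * (3 / D) = ((3 : ℕ) : ℝ) := by
        push_cast
        field_simp
      rw [h3, Real.rpow_natCast]
    have h4 : (4 : ℝ) ^ ((3 : ℝ) / D) ≤ 4 := by
      calc (4 : ℝ) ^ ((3 : ℝ) / D) ≤ (4 : ℝ) ^ (1 : ℝ) := by
            apply Real.rpow_le_rpow_of_exponent_le (by norm_num)
            rw [div_le_one hDpos]
            exact_mod_cast (by omega : 3 ≤ D)
        _ = 4 := Real.rpow_one 4
    rw [h2] at h1
    calc (n : ℝ) ^ ((3 : ℝ) / D) ≤ (4 : ℝ) ^ ((3 : ℝ) / D) * (2 * (q : ℝ)) ^ 3 := h1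
      _ ≤ 4 * (2 * (q : ℝ)) ^ 3 := by gcongr
      _ = 32 * (q : ℝ) ^ 3 := by ring
  rw [Real.rpow_add hnpos, Real.rpow_one]
  calc 1 / 256 * ((n : ℝ) * (n : ℝ) ^ ((3 : ℝ) / D)) ≤ 1 / 256 * ((n : ℝ) * (32 * (q : ℝ) ^ 3)) := by
        gcongr
    _ = ((n : ℝ) * (q : ℝ) ^ 3) / 8 := by ring
    _ ≤ _ := by linarith

/-- the same for all `n ≥ 2` -/
theorem allU (m : ℕ) (hm : 1 ≤ m) (n : ℕ) (hn : 2 ≤ n) :
    ∃ Γ : SimpleGraph (Fin n), ((2 * m : ℕ) : ℕ∞) < Γ.egirth ∧ Γ.Colorable 2 ∧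
      (n : ℝ) ^ (1 + (3 : ℝ) / ((4 * m + 2 - m / 4 : ℕ) : ℝ)) ≤ 256 * (Γ.edgeSet.ncard : ℝ) := by
  classical
  by_cases hbig : 4 * 2 ^ (4 * m + 2 - m / 4) ≤ n
  · obtain ⟨Γ, hdec, h1, h2, h3⟩ := turanU m hm n hbig
    refine ⟨Γ, lt_of_lt_of_le ?_ h1, h2, ?_⟩
    · exact_mod_cast (by omega : 2 * m < 2 * (m + 1))
    · have e2 : Γ.edgeSet.ncard = Γ.edgeFinset.card := by
        rw [← SimpleGraph.coe_edgeFinset, Set.ncard_coe_finset]
      rw [e2]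
      linarith
  · push Not at hbig
    set D : ℕ := 4 * m + 2 - m / 4 with hD
    have hD6 : 6 ≤ D := by omega
    have hDpos : (0 : ℝ) < D := by exact_mod_cast (by omega : 0 < D)
    have : NeZero n := ⟨by omega⟩
    have hconn : (⊤ : SimpleGraph (Fin n)).Connected := SimpleGraph.connected_top
    obtain ⟨T, -, hT⟩ := hconn.exists_isTree_le
    have hcard := hT.card_edgeFinset
    rw [Fintype.card_fin] at hcard
    have e2 : T.edgeSet.ncard = T.edgeFinset.card := by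
      rw [← SimpleGraph.coe_edgeFinset, Set.ncard_coe_finset]
    refine ⟨T, ?_, ?_, ?_⟩
    · rw [SimpleGraph.egirth_eq_top.2 hT.isAcyclic]
      exact ENat.natCast_lt_top _
    · exact hT.isAcyclic.isBipartite
    · have hnpos : (0 : ℝ) < n := by
        have : 0 < n := by omega
        exact_mod_cast this
      have hnq : (n : ℝ) ≤ 4 * (2 : ℝ) ^ D := by exact_mod_cast hbig.le
      have hpow : (n : ℝ) ^ ((3 : ℝ) / D) ≤ 32 := by
        have h1 : (n : ℝ) ^ ((3 : ℝ) / D) ≤ (4 * (2 : ℝ) ^ D) ^ ((3 : ℝ) / D) :=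
          Real.rpow_le_rpow hnpos.le hnq (by positivity)
        rw [Real.mul_rpow (by norm_num) (by positivity)] at h1
        have h2 : ((2 : ℝ) ^ D) ^ ((3 : ℝ) / D) = (2 : ℝ) ^ 3 := by
          rw [← Real.rpow_natCast (2 : ℝ) D, ← Real.rpow_mul (by positivity)]
          have h3 : (D : ℝ) * (3 / D) = ((3 : ℕ) : ℝ) := by
            push_cast
            field_simp
          rw [h3, Real.rpow_natCast]
        have h4 : (4 : ℝ) ^ ((3 : ℝ) / D) ≤ 4 := by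
          calc (4 : ℝ) ^ ((3 : ℝ) / D) ≤ (4 : ℝ) ^ (1 : ℝ) := by
                apply Real.rpow_le_rpow_of_exponent_le (by norm_num)
                rw [div_le_one hDpos]
                exact_mod_cast (by omega : 3 ≤ D)
            _ = 4 := Real.rpow_one 4
        rw [h2] at h1
        calc (n : ℝ) ^ ((3 : ℝ) / D) ≤ (4 : ℝ) ^ ((3 : ℝ) / D) * (2 : ℝ) ^ 3 := h1
          _ ≤ 4 * (2 : ℝ) ^ 3 := by gcongr
          _ = 32 := by norm_num
      rw [Real.rpow_add hnpos, Real.rpow_one, e2]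
      have h5 : (n : ℝ) ≤ 2 * (T.edgeFinset.card : ℝ) := by
        have : n ≤ 2 * T.edgeFinset.card := by omega
        exact_mod_cast this
      nlinarith

end Pool.Agent.K4H81.GU
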